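import Pool.Agent.Lib.MP_a5d0b3_an.Spec

set_option autoImplicit false

open MeasureTheory Set Filter Topology
open scoped ENNReal

namespace Pool.Agent.Lib.MP_a5d0b3_an

lemma le_of_cyl {μ ν : Measure Om} [IsFiniteMeasure μ] [IsFiniteMeasure ν]
    (key : ∀ C ∈ measurableCylinders (fun _ : ℤ => ℤ), μ C ≤ ν C) : μ ≤ ν := by
  refine Measure.le_iff.2 fun C hC => ENNReal.le_of_forall_pos_le_add fun ε hε _ => ?_
  obtain ⟨t, ht, h⟩ := exists_measure_symmDiff_lt_of_generateFrom_isSetRing (μ := μ + ν)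
    isSetRing_measurableCylinders ⟨{univ}, countable_singleton _, by
      simpa using univ_mem_measurableCylinders (fun _ : ℤ => ℤ), by simp⟩
    generateFrom_measurableCylinders.symm hC (ε := ε) (by simpa using hε)
  rw [Measure.add_apply] at h
  have a1 : μ C ≤ μ t + μ (symmDiff t C) :=
    (measure_mono fun x hx => by
      by_cases h : x ∈ t
      · exact Or.inl h
      · exact Or.inr (Or.inr ⟨hx, h⟩)).trans (measure_union_le _ _)
  have a2 : ν t ≤ ν C + ν (symmDiff t C) :=
    (measure_mono fun x hx => by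
      by_cases h : x ∈ C
      · exact Or.inl h
      · exact Or.inr (Or.inl ⟨hx, h⟩)).trans (measure_union_le _ _)
  calc μ C ≤ ν C + ν (symmDiff t C) + μ (symmDiff t C) :=
        a1.trans (add_le_add ((key t ht).trans a2) le_rfl)
    _ ≤ ν C + ε := by rw [add_assoc, add_comm (ν (symmDiff t C))]; exact add_le_add le_rfl h.le

/-- the dilation by `q` -/
def dl (a : ℤ → ℤ) (q : ℕ) (ω : Om) : Om := fun n => a q * ω (q * n)

lemma measurable_dl (a : ℤ → ℤ) (q : ℕ) : Measurable (dl a q) := by unfold dl; fun_prop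

variable {a : ℤ → ℤ} {κ : Measure Om} [IsProbabilityMeasure κ] {M : ℕ → ℕ}

lemma Gen.dl_lim (H : Gen a κ M) (hT : TR κ) (hm : CM a) {q : ℕ} (hq : 0 < q) {I : Finset ℤ}
    {g : Om → ℝ} (hg : Loc I g) (mg : Measurable g) (hb : ∀ ω, |g ω| ≤ 1) {J : ℕ}
    (hJ : ∀ i ∈ I, 0 ≤ i + J) :
    Tendsto (fun k => (∑ i ∈ Finset.range (M k / q), g (pt a (i + 1 + J))) / M k) atTop
      (𝓝 ((∫ ω, g (dl a q ω) ∂κ) / q)) := by
  have t := H.core hT hq (I := I.image fun i => q * i + q * J)
    (g := fun ω => g (dl a q (sh (q * J : ℕ) ω))) (fun ω ω' h => hg _ _ fun i hi => by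
      simp only [dl, sh, Nat.cast_mul, h _ (Finset.mem_image_of_mem _ hi)])
    (mg.comp ((measurable_dl a q).comp (measurable_sh _))) fun _ => hb _
  rw [← integral_map (f := fun ω => g (dl a q ω)) (measurable_sh _).aemeasurable
    (mg.comp (measurable_dl a q)).aestronglyMeasurable, (H.inv_nat _).map_eq] at t
  refine t.congr fun k => ?_
  congr 1
  refine Finset.sum_congr rfl fun i _ => hg _ _ fun n hn => ?_
  have := hJ n hn
  simp only [dl, sh, pt, Nat.cast_mul, ← mul_add]
  rw [hm _ _ (by exact_mod_cast hq) (by omega), ← mul_assoc,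
    show (i : ℤ) + 1 + (n + J) = i + 1 + J + n by ring]
  rcases H.val q with h | h <;> simp [h]

lemma Gen.dl_le (H : Gen a κ M) (hT : TR κ) (hm : CM a) {q r : ℕ} (hq : 0 < q) (hr : q ≤ r) :
    (q : ℝ≥0∞) • κ.map (dl a r) ≤ (r : ℝ≥0∞) • κ.map (dl a q) := by
  classical
  have fin : ∀ q r : ℕ, IsFiniteMeasure ((q : ℝ≥0∞) • κ.map (dl a r)) := fun q r =>
    ⟨by rw [Measure.smul_apply]; exact ENNReal.mul_lt_top (by simp) (measure_lt_top _ _)⟩
  refine le_of_cyl fun C hC => ?_
  have mC := MeasurableSet.of_mem_measurableCylinders hC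
  obtain ⟨I, S, -, rfl⟩ := (mem_measurableCylinders C).1 hC
  have l1 : Loc I ((cylinder I S).indicator 1) := fun ω ω' h => by
    have : I.restrict ω = I.restrict ω' := funext fun i => h i i.2
    simp only [indicator, mem_cylinder, this, Pi.one_apply]
  have b : ∀ ω, |(cylinder I S).indicator (1 : Om → ℝ) ω| ≤ 1 := fun ω => by
    by_cases h : ω ∈ cylinder I S <;> simp [h]
  have hJ : ∀ i ∈ I, 0 ≤ i + (I.sup Int.natAbs : ℕ) := fun i hi => by
    have := Finset.le_sup (f := Int.natAbs) hi
    omega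
  have := le_of_tendsto_of_tendsto'
    (H.dl_lim hT hm (hq.trans_le hr) l1 (measurable_one.indicator mC) b hJ)
    (H.dl_lim hT hm hq l1 (measurable_one.indicator mC) b hJ) fun k =>
    div_le_div_of_nonneg_right (Finset.sum_le_sum_of_subset_of_nonneg
      (Finset.range_mono (Nat.div_le_div_left hr hq))
      fun _ _ _ => indicator_nonneg (fun _ _ => zero_le_one) _) (Nat.cast_nonneg _)
  rw [← integral_map (measurable_dl a r).aemeasurable
    (measurable_one.indicator mC).aestronglyMeasurable, ← integral_map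
    (measurable_dl a q).aemeasurable (measurable_one.indicator mC).aestronglyMeasurable,
    integral_indicator_one mC, integral_indicator_one mC,
    div_le_div_iff₀ (by exact_mod_cast hq.trans_le hr) (by exact_mod_cast hq)] at this
  rw [Measure.smul_apply, Measure.smul_apply, smul_eq_mul, smul_eq_mul,
    ← ENNReal.toReal_le_toReal (by finiteness) (by finiteness)]
  simpa [mul_comm, measureReal_def] using this

lemma Gen.dl_qmp (H : Gen a κ M) (hT : TR κ) (hm : CM a) {q : ℕ} (hq : 0 < q) :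
    Measure.QuasiMeasurePreserving (dl a q) κ κ := by
  have h := H.dl_le hT hm one_pos hq
  have h1 : a 1 = 1 := by
    have := hm 1 1 one_pos one_pos
    rcases H.val 1 with h | h <;> simp_all
  have : dl a 1 = id := by funext ω n; simp [dl, h1]
  rw [this, Measure.map_id, Nat.cast_one, one_smul] at h
  exact ⟨measurable_dl a q, Measure.absolutelyContinuous_of_le_smul h⟩

variable {X : Type*} [MeasurableSpace X] {μ : Measure X} [IsProbabilityMeasure μ] {α : X → T}
  {φ : Om → X × T} {ψ : X × T → Om}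

/-- the powers of the skew product -/
def Sk (α : X → T) (n : ℤ) (z : X × T) : X × T := (z.1, z.2 + n • α z.1)

lemma Sk_mp (mα : Measurable α) (n : ℤ) :
    MeasurePreserving (Sk α n) (μ.prod volume) (μ.prod volume) :=
  MeasurePreserving.skew_product (f := id) (g := fun (x : X) (y : T) => y + n • α x)
    (MeasurePreserving.id _) (by fun_prop)
    (Eventually.of_forall fun _ => map_add_right_eq_self volume _)

lemma names' (mα : Measurable α)
    (h : ∀ᵐ z ∂μ.prod volume, ψ (z.1, α z.1 + z.2) = fun n => ψ z (n + 1)) (n : ℤ) :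
    ∀ᵐ z ∂μ.prod volume, ψ (Sk α n z) = sh n (ψ z) := by
  have h1 : ∀ n, ∀ᵐ z ∂μ.prod volume, ψ (Sk α (n + 1) z) = fun i => ψ (Sk α n z) (i + 1) :=
    fun n => by
    filter_upwards [(Sk_mp mα n).quasiMeasurePreserving.ae h] with z hz
    rw [← hz]; simp [Sk, add_comm, add_smul, add_left_comm]
  unfold sh
  induction n using Int.induction_on with
  | zero => simp [Sk]
  | succ n ih =>
    filter_upwards [h1 n, ih] with z a b
    rw [a, b]; funext i; simp only [add_assoc, add_comm (1 : ℤ)]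
  | pred n ih =>
    filter_upwards [h1 (-n - 1), ih] with z a b
    rw [sub_add_cancel, b] at a
    funext i
    have := congrFun a (i - 1)
    simp only [sub_add_cancel] at this
    rw [← this]; congr 1; ring

lemma freq_pm [StandardBorelSpace X] {x : X} {D : T → X × T} {F : T → ℤ}
    (mD : Measurable D) {q : ℤ} (hq : q ≠ 0) (ha : addOrderOf (α x) = 0) {G : X × T → ℤ}
    (hb : ∀ᵐ y, ∀ n : ℤ, ψ (x, y) n = F (y + n • α x)) (hc : ∀ᵐ y, φ (ψ (x, y)) = (x, y))
    (hd : ∀ᵐ y, D (y + q • α x) = ((D y).1, α (D y).1 + (D y).2)) (he : ∀ᵐ y, F y = G (D y)) :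
    ∀ᵐ y, α (D y).1 = q • α x ∨ α (D y).1 = -(q • α x) := by
  have : Nonempty X := ⟨x⟩
  have f2 := free_zsmul ha hq
  obtain ⟨u, hu⟩ := (AddCircle.ergodic_add_right.2 f2).ae_eq_const_of_ae_eq_comp₀
    mD.fst.nullMeasurable (hd.mono fun y hy => by simp only [Function.comp, hy])
  obtain ⟨k, c, e1, e2⟩ := eigen (u := α u) f2 mD.snd (by
    filter_upwards [hd, hu] with y a b
    rw [a, b, add_comm]; rfl)
  by_cases h1 : k = 1
  · filter_upwards [hu] with y a using Or.inl (by rw [a, ← one_smul ℤ (q • α x), ← h1]; exact e1)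
  by_cases h2 : k = -1
  · filter_upwards [hu] with y a using Or.inr (by rw [a, ← neg_one_smul ℤ (q • α x), ← h2]; exact e1)
  exfalso
  have e3 : ∀ᵐ y, F y = G (u, k • y + c) := by
    filter_upwards [he, hu, e2] with y a b d
    rw [a, ← d]; congr 1; exact Prod.ext b rfl
  obtain ⟨s, s0, hs⟩ := exists_torsion h1 h2
  have p := fun t : T => (measurePreserving_add_right volume t).quasiMeasurePreserving
  have e4 : ∀ᵐ y, F (y + s) = F y := by
    filter_upwards [e3, (p s).ae e3] with y a b
    rw [a, b, smul_add, hs, add_zero]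
  obtain ⟨y, a, b, d, e, f⟩ := (hb.and (((p s).ae hb).and (hc.and (((p s).ae hc).and
    (ae_all_iff.2 fun n : ℤ => (p (n • α x)).ae e4))))).exists
  have : ψ (x, y + s) = ψ (x, y) := funext fun n => by rw [a n, b n, ← f n, add_right_comm]
  rw [this, d] at e
  exact s0 (by simpa using e)

omit [IsProbabilityMeasure κ] in
lemma skew_TR (mα : Measurable α) (irr : ∀ᵐ x ∂μ, addOrderOf (α x) = 0)
    (h4 : MeasurePreserving ψ (μ.prod volume) κ)
    (h6 : ∀ᵐ z ∂μ.prod volume, ψ (z.1, α z.1 + z.2) = fun n => ψ z (n + 1)) :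
    TR κ := fun q hq v mv hv => by
  have mψ := h4.measurable
  have nm := ae_all_iff.2 (names' mα h6)
  have e : ∀ᵐ z ∂μ.prod volume, v (ψ (Sk α q z)) = v (ψ z) := by
    filter_upwards [nm, h4.quasiMeasurePreserving.ae hv] with z a b using by rw [a, b]
  have e' : ∀ᵐ z ∂μ.prod volume, v (ψ (Sk α 1 z)) = v (ψ z) := by
    refine (Measure.ae_prod_iff_ae_ae (measurableSet_eq_fun
      (mv.comp (mψ.comp (Sk_mp (μ := μ) mα 1).measurable)) (mv.comp mψ))).2 ?_
    filter_upwards [Measure.ae_ae_of_ae_prod e, irr] with x hx fx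
    obtain ⟨c, hc⟩ := const_of_inv (free_zsmul fx (k := q) (by exact_mod_cast hq.ne'))
      (g := fun y => v (ψ (x, y))) (mv.comp (mψ.comp measurable_prodMk_left)) hx
    filter_upwards [hc, (measurePreserving_add_right volume
      ((1 : ℤ) • α x)).quasiMeasurePreserving.ae hc] with y a b using b.trans a.symm
  rw [← h4.map_eq]
  refine (ae_map_iff mψ.aemeasurable (measurableSet_eq_fun (mv.comp (measurable_sh 1)) mv)).2 ?_
  filter_upwards [nm, e'] with z a b using by rw [← b, a]; rfl

lemma Gen.skew_pm [StandardBorelSpace X] (H : Gen a κ M) (hm : CM a) (mα : Measurable α)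
    (irr : ∀ᵐ x ∂μ, addOrderOf (α x) = 0) (mφ : Measurable φ)
    (h4 : MeasurePreserving ψ (μ.prod volume) κ)
    (h5 : ∀ᵐ ω ∂κ, φ (fun n => ω (n + 1)) = ((φ ω).1, α (φ ω).1 + (φ ω).2))
    (h6 : ∀ᵐ z ∂μ.prod volume, ψ (z.1, α z.1 + z.2) = fun n => ψ z (n + 1))
    (h7 : ∀ᵐ ω ∂κ, ψ (φ ω) = ω) (h8 : ∀ᵐ z ∂μ.prod volume, φ (ψ z) = z) (q : ℕ) (hq : 0 < q) :
    ∀ᵐ z ∂μ.prod volume, α (φ (dl a q (ψ z))).1 = (q : ℤ) • α z.1 ∨
      α (φ (dl a q (ψ z))).1 = -((q : ℤ) • α z.1) := by
  have hT := skew_TR mα irr h4 h6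
  have nm := ae_all_iff.2 (names' mα h6)
  have p := (H.dl_qmp hT hm hq).comp h4.quasiMeasurePreserving
  have mD : Measurable fun z => φ (dl a q (ψ z)) := mφ.comp p.measurable
  have b : ∀ᵐ z ∂μ.prod volume, ∀ n : ℤ, ψ z n = ψ (z.1, z.2 + n • α z.1) 0 :=
    nm.mono fun z hz n => by simpa [sh, Sk] using (congrFun (hz n) 0).symm
  have d : ∀ᵐ z ∂μ.prod volume, φ (dl a q (ψ (z.1, z.2 + (q : ℤ) • α z.1))) =
      ((φ (dl a q (ψ z))).1, α (φ (dl a q (ψ z))).1 + (φ (dl a q (ψ z))).2) := by
    filter_upwards [nm, p.ae h5] with z a b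
    simp only [Function.comp] at b
    rw [← b, show ψ (z.1, z.2 + (q : ℤ) • α z.1) = _ from a q]
    congr 1; funext n; simp [dl, sh, mul_add]
  have e : ∀ᵐ z ∂μ.prod volume, ψ z 0 = a q * ψ (φ (dl a q (ψ z))) 0 := by
    filter_upwards [p.ae h7] with z b
    rw [show ψ (φ (dl a q (ψ z))) = _ from b]
    rcases H.val q with h | h <;> simp [dl, h]
  have m1 : Measurable fun z : X × T => (q : ℤ) • α z.1 := by fun_prop
  have m2 : Measurable fun z : X × T => α (φ (dl a q (ψ z))).1 := mα.comp mD.fst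
  refine (Measure.ae_prod_iff_ae_ae (by
    rw [ofPred_or]
    exact (measurableSet_eq_fun m2 m1).union (measurableSet_eq_fun m2 m1.neg))).2 ?_
  filter_upwards [irr, Measure.ae_ae_of_ae_prod b, Measure.ae_ae_of_ae_prod h8,
    Measure.ae_ae_of_ae_prod d, Measure.ae_ae_of_ae_prod e] with x a b c d e
  exact freq_pm (D := fun y => φ (dl _ q (ψ (x, y)))) (F := fun y => ψ (x, y) 0)
    (mD.comp measurable_prodMk_left) (by exact_mod_cast hq.ne') a b c d
    (G := fun z => _ * ψ z 0) e

theorem Gen.base [StandardBorelSpace X] (H : Gen a κ M) (hm : CM a) (mα : Measurable α)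
    (irr : ∀ᵐ x ∂μ, addOrderOf (α x) = 0) (h3 : MeasurePreserving φ κ (μ.prod volume))
    (h4 : MeasurePreserving ψ (μ.prod volume) κ)
    (h5 : ∀ᵐ ω ∂κ, φ (fun n => ω (n + 1)) = ((φ ω).1, α (φ ω).1 + (φ ω).2))
    (h6 : ∀ᵐ z ∂μ.prod volume, ψ (z.1, α z.1 + z.2) = fun n => ψ z (n + 1))
    (h7 : ∀ᵐ ω ∂κ, ψ (φ ω) = ω) (h8 : ∀ᵐ z ∂μ.prod volume, φ (ψ z) = z) :
    μ.map α ≪ volume ∧ volume ≪ μ.map α + μ.map fun x => -α x := by
  have := probT
  have mφ := h3.measurable
  have mψ := h4.measurable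
  have mn : Measurable fun x => -α x := mα.neg
  have hT := skew_TR mα irr h4 h6
  have pm := H.skew_pm hm mα irr mφ h4 h5 h6 h7 h8
  have cj : ∀ (n : ℤ) (y : T), fourier n (-y) = starRingEnd ℂ (fourier n y) := fun n y => by
    rw [← fourier_neg, fourier_apply, fourier_apply, neg_smul, smul_neg]
  let R : Om → ℝ := fun ω => (fourier 1 (α (φ ω).1)).re
  have mR : Measurable R := by fun_prop
  have bR : ∀ ω, |R ω| ≤ 1 := fun ω => (Complex.abs_re_le_norm _).trans (Circle.norm_coe _).le
  let c : ℕ → ℝ := fun q => ∫ x, (fourier (q : ℤ) (α x)).re ∂μ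
  have ec : ∀ q : ℕ, 0 < q → ∫ ω, R ω ∂κ.map (dl a q) = c q := fun q hq => by
    rw [← h4.map_eq, Measure.map_map (measurable_dl a q) mψ,
      integral_map ((measurable_dl a q).comp mψ).aemeasurable mR.aestronglyMeasurable,
      integral_congr_ae (g := fun z => (fourier (q : ℤ) (α z.1)).re), integral_fun_fst fun x => (fourier (q : ℤ) (α x)).re]
    · simp [c]
    filter_upwards [pm q hq] with z hz
    rcases hz with e | e <;> simp only [R, Function.comp, e, cj, Complex.conj_re] <;> simp
  set σ := μ.map α + μ.map fun x => -α x with hσ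
  have eσ : ∀ q : ℕ, ∫ x, fourier (q : ℤ) x ∂σ = 2 * c q := fun q => by
    have i : Integrable (fun x => fourier (q : ℤ) (α x)) μ :=
      (int_fourier (μ.map α) q).comp_measurable mα
    rw [hσ, integral_add_measure (int_fourier _ _) (int_fourier _ _),
      integral_map mα.aemeasurable (fourier _).continuous.aestronglyMeasurable,
      integral_map mn.aemeasurable (fourier _).continuous.aestronglyMeasurable]
    simp only [cj, integral_conj, Complex.add_conj, c]
    rw [← RCLike.re_eq_complex_re, integral_re i]; push_cast; rfl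
  have ac : σ.restrict {0}ᶜ ≪ volume := ac_of_slow σ 4 fun q hq => by
    have pr := fun q => Measure.isProbabilityMeasure_map (μ := κ) (measurable_dl a q).aemeasurable
    have i : ∀ q, Integrable R (κ.map (dl a q)) := fun q =>
      Integrable.of_bound mR.aestronglyMeasurable 1 (ae_of_all _ bR)
    have k := fun (ε : ℝ) (hε : |ε| = 1) => integral_mono_measure (f := fun ω => 1 + ε * R ω)
      (H.dl_le hT hm hq q.le_succ) (ae_of_all _ fun ω => by
        have := abs_le.1 (show |ε * R ω| ≤ 1 by rw [abs_mul, hε, one_mul]; exact bR ω)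
        simp only [Pi.zero_apply]; linarith [this.1])
      (((integrable_const _).add ((i q).const_mul ε)).smul_measure (by simp))
    have k2 : ∀ (ε : ℝ) (q : ℕ), 0 < q → ∫ ω, 1 + ε * R ω ∂κ.map (dl a q) = 1 + ε * c q :=
      fun ε q hq => by
      rw [integral_add (integrable_const _) ((i q).const_mul ε), integral_const_mul, ec q hq]; simp
    simp only [integral_smul_measure, k2 _ _ hq, k2 _ _ q.succ_pos, ENNReal.toReal_natCast,
      smul_eq_mul] at k
    have q0 : (0 : ℝ) < q := by exact_mod_cast hq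
    have := slow_step (c := c) (m := 1) (fun q => by
      simpa only [probReal_univ, mul_one, Real.norm_eq_abs] using
        norm_integral_le_of_norm_le_const (μ := μ) (C := 1)
        (f := fun x => (fourier (q : ℤ) (α x)).re) (ae_of_all _ fun x =>
          (Complex.abs_re_le_norm _).trans (Circle.norm_coe _).le)) hq
      (by rw [div_le_div_iff₀ (by positivity) q0]; linarith [k 1 abs_one])
      (by rw [div_le_div_iff₀ (by positivity) q0]; linarith [k (-1) (by simp)])
    rw [← Nat.cast_succ, eσ, eσ, ← mul_sub, ← Complex.ofReal_sub, norm_mul, Complex.norm_real,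
      Real.norm_eq_abs, Complex.norm_two]
    calc _ ≤ 2 * (2 * 1 / (q : ℝ)) := by gcongr
      _ = _ := by ring
  have z0 : σ {0} = 0 := by
    rw [hσ, Measure.add_apply, Measure.map_apply mα (measurableSet_singleton _),
      Measure.map_apply mn (measurableSet_singleton _), add_eq_zero]
    constructor <;> refine measure_mono_null (fun x hx => ?_) (ae_iff.1 irr) <;>
      simp_all
  have ac' : σ ≪ volume := by
    rwa [Measure.restrict_eq_self_of_ae_mem (by simpa [ae_iff] using z0)] at ac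
  refine ⟨(Measure.absolutelyContinuous_of_le (Measure.le_add_right le_rfl)).trans ac',
    dichotomy ac (fun h => ?_) fun N hN => ?_⟩
  · have := measure_add_measure_compl (μ := σ) (measurableSet_singleton 0)
    rw [z0, h, hσ, Measure.add_apply, Measure.map_apply mα MeasurableSet.univ] at this
    simpa using this.symm
  · obtain ⟨N', h1, h2, h3'⟩ := exists_measurable_superset_of_null hN
    have m2 : Measurable fun x : T => (2 : ℕ) • x := by fun_prop
    refine measure_mono_null (preimage_mono h1) ?_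
    rw [hσ, Measure.add_apply, Measure.map_apply mα h2, Measure.map_apply mn h2,
      add_eq_zero] at h3'
    have e0 : ∀ᵐ x ∂μ, α x ∉ N' ∧ -α x ∉ N' :=
      (measure_eq_zero_iff_ae_notMem.1 h3'.1).and (measure_eq_zero_iff_ae_notMem.1 h3'.2)
    have e1 := ((Measure.quasiMeasurePreserving_fst.comp h3.quasiMeasurePreserving).comp
      ((H.dl_qmp hT hm two_pos).comp h4.quasiMeasurePreserving)).ae e0
    have e2 : ∀ᵐ x ∂μ, (2 : ℕ) • α x ∉ N' ∧ (2 : ℕ) • -α x ∉ N' := by
      filter_upwards [Measure.ae_ae_of_ae_prod (e1.and (pm 2 two_pos))] with x hx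
      obtain ⟨y, a, b⟩ := hx.exists
      simp only [Function.comp, natCast_zsmul] at a b
      rw [smul_neg]
      rcases b with b | b <;> rw [b] at a
      · exact a
      · exact ⟨by simpa using a.2, a.1⟩
    rw [hσ, Measure.add_apply, Measure.map_apply mα (m2 h2), Measure.map_apply mn (m2 h2),
      add_eq_zero]
    exact ⟨measure_eq_zero_iff_ae_notMem.2 (e2.mono fun x h => h.1),
      measure_eq_zero_iff_ae_notMem.2 (e2.mono fun x h => h.2)⟩

end Pool.Agent.Lib.MP_a5d0b3_an
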