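import Pool.Agent.Lib.MP_a5d0b3_an.Fiber

set_option autoImplicit false

open MeasureTheory Set Filter Topology
open scoped ENNReal ComplexConjugate ComplexOrder

namespace Pool.Agent.Lib.MP_a5d0b3_an

lemma vol_haar : (volume : Measure T) = AddCircle.haarAddCircle := by
  rw [AddCircle.volume_eq_smul_haarAddCircle]; simp

lemma int_mul {μ : Measure T} {g : T → ℂ} (hg : Integrable g μ) (φ : C(T, ℂ)) :
    Integrable (fun x => φ x * g x) μ :=
  hg.bdd_mul φ.continuous.aestronglyMeasurable (ae_of_all _ φ.norm_coe_le_norm)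

/-- integration against `g dμ` -/
noncomputable def pairL (μ : Measure T) {g : T → ℂ} (hg : Integrable g μ) : C(T, ℂ) →L[ℂ] ℂ :=
  LinearMap.mkContinuous
    { toFun := fun φ => ∫ x, φ x * g x ∂μ
      map_add' := fun φ ψ => by
        rw [← integral_add (int_mul hg φ) (int_mul hg ψ)]; simp [add_mul]
      map_smul' := fun c φ => by simp [mul_assoc, integral_const_mul] }
    (∫ x, ‖g x‖ ∂μ) fun φ => by
      rw [mul_comm, ← integral_const_mul]
      refine norm_integral_le_of_norm_le (hg.norm.const_mul _) (ae_of_all _ fun x => ?_)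
      rw [norm_mul]
      exact mul_le_mul_of_nonneg_right (φ.norm_coe_le_norm x) (norm_nonneg _)

lemma fourier_ind {μ ν : Measure T} {g h : T → ℂ} (hg : Integrable g μ) (hh : Integrable h ν)
    (e : ∀ n, ∫ x, fourier n x * g x ∂μ = ∫ x, fourier n x * h x ∂ν) (φ : C(T, ℂ)) :
    ∫ x, φ x * g x ∂μ = ∫ x, φ x * h x ∂ν := by
  have : pairL μ hg = pairL ν hh := ContinuousLinearMap.ext_on (s := range (@fourier 1))
    (Submodule.dense_iff_topologicalClosure_eq_top.2 span_fourier_closure_eq_top)
    (by rintro _ ⟨n, rfl⟩; exact e n)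
  exact DFunLike.congr_fun this φ

lemma closed_ind {μ ν : Measure T} {g h : T → ℂ} (hg : Integrable g μ) (hh : Integrable h ν)
    (e : ∀ n, ∫ x, fourier n x * g x ∂μ = ∫ x, fourier n x * h x ∂ν) {K : Set T}
    (hK : IsClosed K) : ∫ x in K, g x ∂μ = ∫ x in K, h x ∂ν := by
  let φ : ℕ → C(T, ℂ) := fun n => ⟨fun x => ((hK.apprSeq n x : ℝ) : ℂ), by fun_prop⟩
  have key : ∀ {μ : Measure T} {g : T → ℂ}, Integrable g μ →
      Tendsto (fun n => ∫ x, φ n x * g x ∂μ) atTop (𝓝 (∫ x in K, g x ∂μ)) := by
    intro μ g hg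
    rw [← integral_indicator hK.measurableSet]
    refine tendsto_integral_of_dominated_convergence (fun x => ‖g x‖)
      (fun n => (int_mul hg _).aestronglyMeasurable) hg.norm (fun n => ae_of_all _ fun x => ?_)
      (ae_of_all _ fun x => ?_)
    · rw [norm_mul]
      refine mul_le_of_le_one_left (norm_nonneg _) ?_
      simpa [φ] using HasOuterApproxClosed.apprSeq_apply_le_one hK n x
    · have := (Complex.continuous_ofReal.tendsto _).comp ((NNReal.continuous_coe.tendsto _).comp
        (tendsto_pi_nhds.1 (HasOuterApproxClosed.tendsto_apprSeq hK) x))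
      have e : K.indicator g x = (((K.indicator (fun _ => (1 : NNReal)) x : NNReal) : ℝ) : ℂ) * g x := by
        by_cases hx : x ∈ K <;> simp [hx]
      rw [e]
      exact this.mul_const (g x)
  exact tendsto_nhds_unique (key hg) ((key hh).congr fun n => (fourier_ind hg hh e _).symm)

lemma ext_fourier {μ ν : Measure T} [IsFiniteMeasure μ] [IsFiniteMeasure ν]
    (e : ∀ n, ∫ x, fourier n x ∂μ = ∫ x, fourier n x ∂ν) : μ = ν := by
  refine ext_of_forall_integral_eq_of_IsFiniteMeasure fun f => ?_
  have := fourier_ind (integrable_const (1 : ℂ)) (integrable_const (1 : ℂ)) (μ := μ) (ν := ν)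
    (by simpa only [mul_one] using e) ⟨fun x => (f x : ℂ), by fun_prop⟩
  simp only [ContinuousMap.coe_mk, mul_one, integral_complex_ofReal] at this
  exact_mod_cast this

lemma int_fourier (μ : Measure T) [IsFiniteMeasure μ] (n : ℤ) : Integrable (fourier n) μ := by
  simpa only [mul_one] using int_mul (integrable_const (1 : ℂ)) (μ := μ) (fourier n)

lemma ac_of_slow (σ : Measure T) [IsFiniteMeasure σ] (C : ℝ)
    (h : ∀ q : ℕ, 1 ≤ q → ‖∫ x, fourier ((q : ℤ) + 1) x ∂σ - ∫ x, fourier (q : ℤ) x ∂σ‖ ≤ C / q) :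
    σ.restrict {0}ᶜ ≪ volume := by
  let d : ℤ → ℂ := fun n => ∫ x, fourier (-n) x * (1 - fourier 1 x) ∂σ
  have hd : ∀ n, d n = ∫ x, fourier (-n) x ∂σ - ∫ x, fourier (-n + 1) x ∂σ := fun n => by
    rw [← integral_sub (int_fourier σ _) (int_fourier σ _)]
    simp only [d, fourier_add, mul_sub, mul_one]
  have cj : ∀ n, ∫ x, fourier (-n) x ∂σ = conj (∫ x, fourier n x ∂σ) := fun n => by
    rw [← integral_conj]; simp only [fourier_neg]
  have s0 : Summable fun q : ℕ =>
      ‖∫ x, fourier ((q : ℤ) + 1) x ∂σ - ∫ x, fourier (q : ℤ) x ∂σ‖ ^ 2 := by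
    refine Summable.of_norm_bounded_eventually_nat
      ((Real.summable_one_div_nat_pow.2 one_lt_two).mul_left (C ^ 2)) ?_
    filter_upwards [eventually_ge_atTop 1] with q hq
    rw [norm_pow, norm_norm, mul_one_div, ← div_pow]
    exact pow_le_pow_left₀ (norm_nonneg _) (h q hq) 2
  have hs : Memℓp d 2 := memℓp_gen (by
    simp only [ENNReal.toReal_ofNat, Real.rpow_ofNat]
    refine Summable.of_add_one_of_neg_add_one ?_ ?_
    · refine s0.congr fun q => ?_
      rw [hd, show -((q : ℤ) + 1) + 1 = -q by ring, cj, cj, ← map_sub, Complex.norm_conj]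
    · refine ((summable_nat_add_iff 1).2 s0).congr fun q => ?_
      rw [hd, neg_neg, norm_sub_rev]; push_cast; rfl)
  let G := (fourierBasis (T := 1)).repr.symm ⟨d, hs⟩
  have hG : ∀ n, fourierCoeff G n = d n := fun n => by
    rw [← fourierBasis_repr]; simp [G]
  have iG : Integrable G volume := by
    rw [vol_haar]; exact (Lp.memLp G).integrable one_le_two
  have i1 : Integrable (fun x : T => 1 - fourier 1 x) σ := (integrable_const _).sub (int_fourier σ 1)
  refine Measure.AbsolutelyContinuous.mk fun N hN h0 => ?_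
  rw [Measure.restrict_apply hN, (hN.inter (measurableSet_singleton _).compl).measure_eq_iSup_isClosed_of_ne_top
    (measure_ne_top _ _)]
  simp only [ENNReal.iSup_eq_zero]
  intro K hK cK
  have e := closed_ind i1 iG (fun n => by
    have := hG (-n)
    simp only [d, neg_neg, fourierCoeff, smul_eq_mul] at this
    rw [vol_haar, this]) cK
  rw [setIntegral_measure_zero _ (measure_mono_null (hK.trans inter_subset_left) h0)] at e
  have e2 := congrArg Complex.re e
  rw [← RCLike.re_eq_complex_re, ← integral_re i1.integrableOn, map_zero,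
    integral_eq_zero_iff_of_nonneg (fun x => by
      simpa using (Complex.re_le_norm (fourier 1 x)).trans (Circle.norm_coe _).le) i1.integrableOn.re] at e2
  rw [← Measure.restrict_apply_self]
  refine measure_mono_null (fun x hx => ?_) (ae_iff.1 e2)
  intro e3
  apply (hK hx).2
  have e4 : (fourier 1 x : ℂ).re = 1 := by
    simp only [map_sub, RCLike.one_re, Pi.zero_apply, RCLike.re_to_complex] at e3; linarith
  have e5 : (fourier 1 x : ℂ) = 1 := by
    have n1 : Complex.normSq (fourier 1 x) = 1 := Circle.normSq_coe _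
    rw [Complex.normSq_apply, e4] at n1
    exact Complex.ext e4 (by simpa using n1)
  rw [fourier_one] at e5
  exact AddCircle.injective_toCircle (T := 1) one_ne_zero
    ((Circle.ext (e5.trans Circle.coe_one.symm)).trans AddCircle.toCircle_zero.symm)

lemma dichotomy {σ : Measure T} (h1 : σ.restrict {0}ᶜ ≪ volume) (h0 : σ {0}ᶜ ≠ 0)
    (h2 : ∀ N, σ N = 0 → σ ((fun x : T => (2 : ℕ) • x) ⁻¹' N) = 0) : volume ≪ σ := by
  refine Measure.AbsolutelyContinuous.mk fun N hN e => ?_
  let A := ⋃ k : ℕ, (fun x : T => (2 : ℕ) • x)^[k] ⁻¹' N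
  have m2 : Measurable fun x : T => (2 : ℕ) • x := by fun_prop
  have mA : MeasurableSet A := MeasurableSet.iUnion fun k => m2.iterate k hN
  have zA : σ A = 0 := measure_iUnion_null fun k => by
    induction k with
    | zero => exact e
    | succ k ih => exact h2 _ ih
  rcases (AddCircle.ergodic_nsmul (T := 1) one_lt_two).ae_empty_or_univ_of_preimage_ae_le
    mA.nullMeasurableSet (LE.le.eventuallyLE fun x hx => by
      obtain ⟨k, hk⟩ := mem_iUnion.1 hx
      exact mem_iUnion.2 ⟨k + 1, hk⟩) with h | h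
  · exact measure_mono_null (subset_iUnion (fun k : ℕ => (fun x : T => (2 : ℕ) • x)^[k] ⁻¹' N) 0)
      (ae_eq_empty.1 h)
  · have := h1 (ae_eq_univ.1 h)
    rw [Measure.restrict_apply mA.compl] at this
    refine absurd (measure_mono_null (fun x hx => ?_) (measure_union_null zA this)) h0
    by_cases e : x ∈ A
    · exact Or.inl e
    · exact Or.inr ⟨e, hx⟩

lemma herglotz (c : ℤ → ℂ) (h0 : c 0 = 1) (hp : ∀ (N : ℕ) (p : ℕ → ℂ),
    0 ≤ ∑ j ∈ Finset.range N, ∑ k ∈ Finset.range N, p j * conj (p k) * c (j - k)) :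
    ∃ σ : Measure T, IsProbabilityMeasure σ ∧ ∀ n, ∫ x, fourier n x ∂σ = c n := by
  let F : ℕ → T → ℂ := fun N x => (∑ j ∈ Finset.range (N + 1), ∑ k ∈ Finset.range (N + 1),
    fourier (-(j : ℤ)) x * conj (fourier (-(k : ℤ)) x) * c (j - k)) / (N + 1 : ℕ)
  have cF : ∀ N, Continuous (F N) := fun N => by unfold F; fun_prop
  have pF : ∀ N x, 0 ≤ F N x := fun N x => div_nonneg (hp _ _) (Nat.cast_nonneg _)
  let μ : ℕ → Measure T := fun N => volume.withDensity fun x => ENNReal.ofReal (F N x).re
  let cnt : ℤ → ℕ → ℝ := fun n N => (∑ j ∈ Finset.range (N + 1), ∑ k ∈ Finset.range (N + 1),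
    if (j : ℤ) - k = n then (1 : ℝ) else 0) / (N + 1 : ℕ)
  have e : ∀ N n, ∫ x, fourier n x ∂μ N = cnt n N * c n := fun N n => by
    rw [integral_withDensity_eq_integral_toReal_smul (by have := cF N; fun_prop)
      (ae_of_all _ fun x => ENNReal.ofReal_lt_top)]
    have : ∀ x, (ENNReal.ofReal (F N x).re).toReal • fourier n x
        = (∑ j ∈ Finset.range (N + 1), ∑ k ∈ Finset.range (N + 1),
          c (j - k) * (fourier (-((j : ℤ) - k)) x • fourier n x)) / (N + 1 : ℕ) := fun x => by
      rw [ENNReal.toReal_ofReal (Complex.nonneg_iff.1 (pF N x)).1, Complex.real_smul,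
        ← Complex.eq_re_of_ofReal_le (pF N x), div_mul_eq_mul_div, Finset.sum_mul]
      congr 1
      refine Finset.sum_congr rfl fun j _ => ?_
      rw [Finset.sum_mul]
      refine Finset.sum_congr rfl fun k _ => ?_
      rw [← fourier_neg, ← fourier_add, smul_eq_mul, show -(j : ℤ) + - -(k : ℤ) = -(j - k) by ring]
      ring
    have i : ∀ m : ℤ, Integrable (fun x : T => c m * (fourier (-m) x • fourier n x)) volume :=
      fun m => (int_mul (int_fourier volume n) _).const_mul _
    simp only [this]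
    rw [integral_div, integral_finsetSum _ fun j _ => integrable_finsetSum _ fun k _ => i _]
    simp only [cnt]
    push_cast
    rw [div_mul_eq_mul_div, Finset.sum_mul]
    congr 1
    refine Finset.sum_congr rfl fun j _ => ?_
    rw [integral_finsetSum _ fun k _ => i _, Finset.sum_mul]
    refine Finset.sum_congr rfl fun k _ => ?_
    have := congrFun (fourierCoeff_fourier (T := 1) n) (j - k)
    rw [fourierCoeff, ← vol_haar] at this
    rw [integral_const_mul, this, Pi.single_apply]
    split_ifs with h <;> simp [h]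
  have hc : ∀ n N, 1 - 2 * |n| / ((N + 1 : ℕ) : ℝ) ≤ cnt n N ∧ cnt n N ≤ 1 := fun n N => by
    have p : (0 : ℝ) < (N + 1 : ℕ) := by positivity
    have b : ∀ j ∈ Finset.range (N + 1), (if n.natAbs ≤ j ∧ j + n.natAbs ≤ N then (1 : ℝ) else 0) ≤
        (∑ k ∈ Finset.range (N + 1), if (j : ℤ) - k = n then (1 : ℝ) else 0) ∧
        (∑ k ∈ Finset.range (N + 1), if (j : ℤ) - k = n then (1 : ℝ) else 0) ≤ 1 := fun j _ => by
      rw [Finset.sum_boole, Nat.cast_le_one]
      refine ⟨?_, Finset.card_le_one.2 fun a ha b hb => ?_⟩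
      · split_ifs with h
        · exact Nat.one_le_cast.2 (Finset.card_pos.2 ⟨(j - n).toNat, Finset.mem_filter.2
            ⟨Finset.mem_range.2 (by omega), by omega⟩⟩)
        · positivity
      · have := (Finset.mem_filter.1 ha).2
        have := (Finset.mem_filter.1 hb).2
        omega
    simp only [cnt]
    rw [div_le_one p, le_div_iff₀ p, sub_mul, div_mul_cancel₀ _ p.ne', one_mul]
    refine ⟨le_trans ?_ (Finset.sum_le_sum fun j hj => (b j hj).1),
      (Finset.sum_le_sum fun j hj => (b j hj).2).trans (by simp)⟩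
    have := Finset.card_le_card (s := Finset.Ico n.natAbs (N + 1 - n.natAbs))
      (t := (Finset.range (N + 1)).filter fun j => n.natAbs ≤ j ∧ j + n.natAbs ≤ N) fun j hj => by
        simp only [Finset.mem_Ico, Finset.mem_filter, Finset.mem_range] at hj ⊢; omega
    rw [Finset.sum_boole, ← Nat.cast_natAbs, sub_le_iff_le_add]
    rw [Nat.card_Ico] at this
    exact_mod_cast (by omega)
  have lim : ∀ n, Tendsto (cnt n) atTop (𝓝 1) := fun n => by
    have := (tendsto_const_nhds (x := (1 : ℝ))).sub ((tendsto_const_div_atTop_nhds_zero_nat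
      (2 * |n| : ℝ)).comp (tendsto_add_atTop_nat 1))
    rw [sub_zero] at this
    exact tendsto_of_tendsto_of_tendsto_of_le_of_le this tendsto_const_nhds (fun N => (hc n N).1)
      fun N => (hc n N).2
  have pr : ∀ N, IsProbabilityMeasure (μ N) := fun N => by
    have := e N 0
    rw [h0, le_antisymm (hc 0 N).2 (by simpa using (hc 0 N).1)] at this
    simp only [fourier_zero, integral_const, Complex.real_smul, mul_one, Complex.ofReal_inj] at this
    exact ⟨(ENNReal.toReal_eq_one_iff _).1 this⟩
  let P : ℕ → ProbabilityMeasure T := fun N => ⟨μ N, pr N⟩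
  obtain ⟨σ, -, hσ⟩ := isCompact_univ.ultrafilter_le_nhds ((Ultrafilter.of atTop).map P) (by simp)
  refine ⟨σ, inferInstance, fun n => ?_⟩
  have t := (ProbabilityMeasure.tendsto_iff_forall_integral_rclike_tendsto ℂ).1
    (show Tendsto P (Ultrafilter.of (atTop : Filter ℕ) : Ultrafilter ℕ) (𝓝 σ) from hσ) (.mkOfCompact (fourier n))
  have t2 := (((Complex.continuous_ofReal.tendsto _).comp (lim n)).mul_const (c n)).mono_left
    (Ultrafilter.of_le atTop)
  rw [Complex.ofReal_one, one_mul] at t2
  exact tendsto_nhds_unique t (t2.congr fun N => (e N n).symm)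

end Pool.Agent.Lib.MP_a5d0b3_an
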