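import Pool.Agent.Lib.MP_a5d0b3_an.Main
import Pool.Agent.Lib.MP_a5d0b3_an.Harm

set_option autoImplicit false

open MeasureTheory Set Filter Topology
open scoped ENNReal

namespace Pool.Agent.Lib.MP_a5d0b3_an

/-- the shift by `h` -/
def sh (h : ℤ) (ω : Om) : Om := fun i => ω (i + h)

/-- the window of `a` at `j` -/
def pt (a : ℤ → ℤ) (j : ℤ) : Om := fun i => a (j + i)

lemma measurable_sh (h : ℤ) : Measurable (sh h) := by unfold sh; fun_prop

lemma sh_sh (h k : ℤ) (ω : Om) : sh h (sh k ω) = sh (h + k) ω := by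
  funext i; simp [sh, add_assoc]

lemma sh_pt (a : ℤ → ℤ) (h j : ℤ) : sh h (pt a j) = pt a (j + h) := by
  funext i; simp only [sh, pt]; ring_nf

lemma Loc.sh {I : Finset ℤ} {g : Om → ℝ} (hg : Loc I g) (h : ℤ) :
    Loc (I.image (· + h)) fun ω => g (sh h ω) :=
  fun _ _ e => hg _ _ fun _ hi => e _ (Finset.mem_image_of_mem _ hi)

variable {a : ℤ → ℤ} {κ : Measure Om} [IsProbabilityMeasure κ] {M : ℕ → ℕ}

lemma Gen.conv' (H : Gen a κ M) {I : Finset ℤ} {g : Om → ℝ} (hg : Loc I g) :
    Tendsto (fun k : ℕ => (∑ j ∈ Finset.range (M k), g (pt a (j + 1))) / M k) atTop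
      (𝓝 (∫ ω, g ω ∂κ)) := H.conv hg

omit [IsProbabilityMeasure κ] in
lemma Gen.small (H : Gen a κ M) {u : ℕ → ℝ} {C : ℝ} (h : ∀ k, |u k| ≤ C) :
    Tendsto (fun k => u k / M k) atTop (𝓝 0) :=
  squeeze_zero_norm (fun k => by
    rw [Real.norm_eq_abs, abs_div, Nat.abs_cast]
    exact div_le_div_of_nonneg_right (h k) (Nat.cast_nonneg _))
    ((tendsto_const_div_atTop_nhds_zero_nat C).comp H.top)

lemma Gen.inv (H : Gen a κ M) : MeasurePreserving (sh 1) κ κ := by
  refine ⟨measurable_sh 1, ext_restrict fun I p => ?_⟩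
  have mC : MeasurableSet (I.restrict ⁻¹' {p} : Set Om) :=
    Finset.measurable_restrict I (measurableSet_singleton _)
  have l1 : Loc I ((I.restrict ⁻¹' {p} : Set Om).indicator 1) := fun ω ω' h => by
    have : I.restrict ω = I.restrict ω' := funext fun i => h i i.2
    simp only [indicator, mem_preimage, this, Pi.one_apply]
  have t := (H.conv' l1).sub (H.conv' (l1.sh 1))
  have t2 := H.small fun k => shift_sum (u := fun j => (I.restrict ⁻¹' {p} : Set Om).indicator
    (1 : Om → ℝ) (pt a (j + 1))) (fun j => by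
      by_cases h : pt a (j + 1) ∈ (I.restrict ⁻¹' {p} : Set Om) <;> simp [h]) (M k) 1
  have e := tendsto_nhds_unique t (t2.congr fun k => by
    simp only [sub_div, sh_pt, Nat.cast_add, Nat.cast_one])
  rw [← integral_map (measurable_sh 1).aemeasurable
    (measurable_one.indicator mC).aestronglyMeasurable, integral_indicator_one mC,
    integral_indicator_one mC, sub_eq_zero] at e
  rw [Measure.map_apply (Finset.measurable_restrict I) (measurableSet_singleton _),
    Measure.map_apply (Finset.measurable_restrict I) (measurableSet_singleton _)]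
  exact ((ENNReal.toReal_eq_toReal_iff' (measure_ne_top _ _) (measure_ne_top _ _)).1 e).symm

lemma Gen.inv_nat (H : Gen a κ M) (n : ℕ) : MeasurePreserving (sh n) κ κ := by
  induction n with
  | zero => convert MeasurePreserving.id κ; funext ω i; simp [sh]
  | succ n ih => convert ih.comp H.inv; funext ω; simp [sh_sh]

/-- functions invariant under a power of the shift are invariant under the shift -/
def TR (κ : Measure Om) : Prop := ∀ q : ℕ, 0 < q → ∀ v : Om → ℝ, Measurable v →
  (∀ᵐ ω ∂κ, v (sh q ω) = v ω) → ∀ᵐ ω ∂κ, v (sh 1 ω) = v ω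

/-- average along the shift by `q` -/
noncomputable def av (g : Om → ℝ) (q n : ℕ) (ω : Om) : ℝ :=
  (∑ h ∈ Finset.range n, g (sh (q * h) ω)) / n

lemma Gen.mean (H : Gen a κ M) (hT : TR κ) {q : ℕ} (hq : 0 < q) {g : Om → ℝ} (hm : Measurable g)
    (hb : ∀ ω, |g ω| ≤ 1) :
    Tendsto (fun n => ∫ ω, |av g q n ω - av g q n (sh 1 ω)| ∂κ) atTop (𝓝 0) := by
  have hL : MemLp g 2 κ := MemLp.of_bound hm.aestronglyMeasurable 1 (Eventually.of_forall hb)
  let V := fun n : ℕ =>
    (Lp.compMeasurePreservingₗᵢ ℝ (E := ℝ) (p := 2) (sh n) (H.inv_nat n)).toContinuousLinearMap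
  have hV : ∀ n v, V n v =ᵐ[κ] fun ω => v (sh n ω) := fun n v =>
    Lp.coeFn_compMeasurePreserving v (H.inv_nat n)
  obtain ⟨y, hy, t⟩ := vN (V q) (LinearIsometry.norm_toContinuousLinearMap_le _) (hL.toLp g)
  have hy1 : V 1 y = y := Lp.ext ((hV 1 y).trans
    (hT q hq y (Lp.stronglyMeasurable y).measurable (by have := hV q y; rw [hy] at this; exact this.symm)))
  have t2 := (t.sub (((V 1).continuous.tendsto y).comp t)).norm
  rw [hy1, sub_self, norm_zero] at t2
  have it : ∀ j : ℕ, (V q)^[j] (hL.toLp g) =ᵐ[κ] fun ω => g (sh (q * j) ω) := fun j => by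
    induction j with
    | zero => filter_upwards [hL.coeFn_toLp] with ω h; rw [Function.iterate_zero_apply, h]; congr 1; funext i; simp [sh]
    | succ j ih =>
      rw [Function.iterate_succ_apply']
      filter_upwards [hV q ((V q)^[j] (hL.toLp g)), (H.inv_nat q).quasiMeasurePreserving.ae ih]
        with z a b
      rw [a, b, sh_sh]; push_cast; rw [mul_add, mul_one]
  refine squeeze_zero (fun n => integral_nonneg fun _ => abs_nonneg _) (fun n => ?_) t2
  simp only [Function.comp]
  set w := birkhoffAverage ℝ (V q) id n (hL.toLp g) with hw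
  have e : w =ᵐ[κ] av g q n := by
    rw [hw, birkhoffAverage, birkhoffSum]
    filter_upwards [Lp.coeFn_smul (n : ℝ)⁻¹ (∑ k ∈ Finset.range n, id ((V q)^[k] (hL.toLp g))),
      Lp.coeFn_finsetSum (Finset.range n) fun k => id ((V q)^[k] (hL.toLp g)),
      ae_all_iff.2 it] with z a b c
    rw [a, Pi.smul_apply, b, Finset.sum_apply, smul_eq_mul, av, div_eq_inv_mul]
    simp only [id, c]
  have e2 : ∫ ω, |av g q n ω - av g q n (sh 1 ω)| ∂κ = ∫ ω, ‖(w - V 1 w) ω‖ ∂κ := by
    refine integral_congr_ae ?_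
    filter_upwards [e, H.inv.quasiMeasurePreserving.ae e, hV 1 w, Lp.coeFn_sub w (V 1 w)]
      with z a b c d
    rw [d, Pi.sub_apply, c, a, ← b]; rfl
  rw [e2, integral_norm_eq_lintegral_enorm (Lp.aestronglyMeasurable _),
    ← eLpNorm_one_eq_lintegral_enorm, Lp.norm_def]
  exact ENNReal.toReal_mono (Lp.eLpNorm_ne_top _)
    (eLpNorm_le_eLpNorm_of_exponent_le (by norm_num) (Lp.aestronglyMeasurable _))

lemma avg_shift {u : ℕ → ℝ} (ub : ∀ j, |u j| ≤ 1) (N : ℕ) {n : ℕ} (hn : 0 < n) :
    |∑ j ∈ Finset.range N, u j - ∑ j ∈ Finset.range N, (∑ h ∈ Finset.range n, u (j + h)) / n|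
      ≤ 2 * n := by
  have n3 : (0 : ℝ) < n := by exact_mod_cast hn
  have e2 : ∑ j ∈ Finset.range N, u j - ∑ j ∈ Finset.range N, (∑ h ∈ Finset.range n, u (j + h)) / n
      = (∑ h ∈ Finset.range n, (∑ j ∈ Finset.range N, u j -
        ∑ j ∈ Finset.range N, u (j + h))) / n := by
    rw [← Finset.sum_div, Finset.sum_comm, Finset.sum_sub_distrib]
    simp; field_simp
  rw [e2, abs_div, abs_of_pos n3, div_le_iff₀ n3]
  refine (Finset.abs_sum_le_sum_abs _ _).trans ?_
  have := Finset.sum_le_card_nsmul (Finset.range n) _ (2 * n : ℝ) fun h hh =>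
    (shift_sum ub N h).trans (by
      have : (h : ℝ) ≤ n := by exact_mod_cast (Finset.mem_range.1 hh).le
      linarith)
  simpa [mul_comm] using this

lemma sum_blocks (f : ℕ → ℝ) (q N : ℕ) : ∑ j ∈ Finset.range (q * N), f j =
    ∑ r ∈ Finset.range q, ∑ i ∈ Finset.range N, f (q * i + r) := by
  rw [Finset.sum_comm]
  induction N with
  | zero => simp
  | succ N ih => rw [mul_add, mul_one, Finset.sum_range_add, ih, Finset.sum_range_succ]

/-- equidistribution of the windows in the residue classes -/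
theorem Gen.core (H : Gen a κ M) (hT : TR κ) {q : ℕ} (hq : 0 < q) {I : Finset ℤ} {g : Om → ℝ}
    (hg : Loc I g) (hm : Measurable g) (hb : ∀ ω, |g ω| ≤ 1) :
    Tendsto (fun k => (∑ i ∈ Finset.range (M k / q), g (pt a (q * (i + 1)))) / M k) atTop
      (𝓝 ((∫ ω, g ω ∂κ) / q)) := by
  classical
  let S : ℕ → ℕ → ℝ := fun r k =>
    (∑ i ∈ Finset.range (M k / q), g (pt a ((q * i + r : ℕ) + 1))) / M k
  have step : ∀ r < q, Tendsto (fun k => S r k - S (r + 1) k) atTop (𝓝 0) := fun r hr => by
    rw [Metric.tendsto_nhds]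
    intro ε hε
    obtain ⟨n, n1, n2⟩ :=
      (((H.mean hT hq hm hb).eventually_lt_const hε).and (eventually_gt_atTop 0)).exists
    have l0 : Loc ((Finset.range n).biUnion fun h => I.image (· + (q * h : ℤ))) (av g q n) :=
      fun ω ω' h => by
        unfold av
        congr 1
        exact Finset.sum_congr rfl fun j hj => hg.sh _ _ _ fun i hi =>
          h _ (Finset.mem_biUnion.2 ⟨j, hj, hi⟩)
    have l : Loc (_ ∪ _) fun ω => |av g q n ω - av g q n (sh 1 ω)| := fun ω ω' h => by
      beta_reduce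
      rw [l0 ω ω' fun i hi => h i (Finset.mem_union_left _ hi),
        show av g q n (sh 1 ω) = _ from l0.sh 1 ω ω' fun i hi => h i (Finset.mem_union_right _ hi)]
    have t1 := (H.conv' l).add ((tendsto_const_div_atTop_nhds_zero_nat (4 * n : ℝ)).comp H.top)
    rw [add_zero] at t1
    filter_upwards [t1.eventually_lt_const n1] with k hk
    refine lt_of_le_of_lt ?_ hk
    simp only [S]
    rw [Real.dist_eq, sub_zero, ← sub_div, abs_div, Nat.abs_cast, Function.comp, ← add_div]
    gcongr
    have b1 := avg_shift (u := fun i => g (pt a ((q * i + r : ℕ) + 1))) (fun _ => hb _) (M k / q) n2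
    have b2 := avg_shift (u := fun i => g (pt a ((q * i + (r + 1) : ℕ) + 1))) (fun _ => hb _)
      (M k / q) n2
    have b3 : |∑ j ∈ Finset.range (M k / q),
        (∑ h ∈ Finset.range n, g (pt a ((q * (j + h) + r : ℕ) + 1))) / n -
        ∑ j ∈ Finset.range (M k / q),
        (∑ h ∈ Finset.range n, g (pt a ((q * (j + h) + (r + 1) : ℕ) + 1))) / n| ≤
        ∑ j ∈ Finset.range (M k), |av g q n (pt a (j + 1)) - av g q n (sh 1 (pt a (j + 1)))| := by
      rw [← Finset.sum_sub_distrib]
      refine (Finset.abs_sum_le_sum_abs _ _).trans (le_trans ?_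
        (Finset.sum_le_sum_of_subset_of_nonneg (Finset.range_mono (Nat.mul_div_le (M k) q))
          fun _ _ _ => abs_nonneg _))
      rw [sum_blocks]
      refine le_trans (le_of_eq (Finset.sum_congr rfl fun j _ => ?_)) (Finset.single_le_sum
        (fun r _ => Finset.sum_nonneg fun _ _ => abs_nonneg _) (Finset.mem_range.2 hr))
      simp only [av, sh_pt]
      congr 3 <;> refine Finset.sum_congr rfl fun h _ => ?_ <;> congr 2 <;> push_cast <;> ring
    rw [abs_le] at b1 b2 b3 ⊢
    constructor <;> linarith [b1.1, b1.2, b2.1, b2.2, b3.1, b3.2]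
  have tel : ∀ r ≤ q, Tendsto (fun k => S 0 k - S r k) atTop (𝓝 0) := fun r hr => by
    induction r with
    | zero => simp
    | succ r ih => simpa using (ih (by omega)).add (step r hr)
  have tot : Tendsto (fun k => ∑ r ∈ Finset.range q, S r k) atTop (𝓝 (∫ ω, g ω ∂κ)) := by
    have := (H.conv' hg).sub (H.small (C := q) (u := fun k => ∑ j ∈ Finset.range (M k % q),
      g (pt a ((q * (M k / q) + j : ℕ) + 1))) fun k => (Finset.abs_sum_le_sum_abs _ _).trans
        ((Finset.sum_le_card_nsmul _ _ 1 fun j _ => hb _).trans (by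
          simpa using (Nat.mod_lt _ hq).le)))
    rw [sub_zero] at this
    refine this.congr fun k => ?_
    rw [← sub_div, ← Finset.sum_div, ← sum_blocks (fun j => g (pt a (j + 1)))]
    nth_rewrite 1 [← Nat.div_add_mod (M k) q]
    rw [Finset.sum_range_add, add_sub_cancel_right]
  have q0 : (q : ℝ) ≠ 0 := by exact_mod_cast hq.ne'
  have := ((tot.add (tendsto_finsetSum (Finset.range q) fun r hr =>
    tel r (Finset.mem_range.1 hr).le)).div_const q).sub (tel (q - 1) (by omega))
  simp only [Finset.sum_const_zero, add_zero, sub_zero] at this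
  refine this.congr fun k => ?_
  rw [← Finset.sum_add_distrib]
  simp only [add_sub_cancel, Finset.sum_const, Finset.card_range, nsmul_eq_mul]
  rw [mul_div_cancel_left₀ _ q0, sub_sub_cancel]
  simp only [S]
  congr 1
  refine Finset.sum_congr rfl fun i _ => ?_
  congr 2
  rw [Nat.cast_add, Nat.cast_sub hq]; push_cast; ring

end Pool.Agent.Lib.MP_a5d0b3_an
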