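import Mathlib

open MeasureTheory Set Filter Topology
open scoped ENNReal

namespace Pool.Agent.Lib.MP_a5d0b3_an

abbrev T := UnitAddCircle

lemma ae_free : ∀ᵐ x : T, addOrderOf x = 0 := by
  have : ({x : T | addOrderOf x ≠ 0}).Countable := by
    have h : {x : T | addOrderOf x ≠ 0} ⊆ ⋃ n : ℕ, {x : T | addOrderOf x = n + 1} := by
      intro x hx
      exact mem_iUnion.2 ⟨addOrderOf x - 1, by
        simp only [mem_ofPred_eq] at hx ⊢; omega⟩
    exact (countable_iUnion fun n => (AddCircle.finite_setOfPred_addOrderOf_eq 1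
      (Nat.succ_pos n)).countable).mono h
  have : NullSingletonClass (volume : Measure T) := ⟨fun x => by
    rw [← Metric.closedBall_zero, AddCircle.volume_closedBall]; simp⟩
  filter_upwards [Set.Countable.ae_notMem ‹_› volume] with x hx using by simpa using hx

lemma free_zsmul {x : T} (hx : addOrderOf x = 0) {k : ℤ} (hk : k ≠ 0) : addOrderOf (k • x) = 0 := by
  rw [addOrderOf_eq_zero_iff] at hx ⊢
  intro h
  obtain ⟨n, hn, e⟩ := isOfFinAddOrder_iff_zsmul_eq_zero.1 h
  exact hx (isOfFinAddOrder_iff_zsmul_eq_zero.2 ⟨n * k, mul_ne_zero hn hk, by rw [mul_smul, e]⟩)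

lemma const_of_inv {X : Type} [Nonempty X] [TopologicalSpace X] [TopologicalSpace.MetrizableSpace X]
    [MeasurableSpace X] [BorelSpace X] [SecondCountableTopology X] {a : T}
    (ha : addOrderOf a = 0) {g : T → X} (hg : Measurable g) (h : ∀ᵐ y, g (y + a) = g y) :
    ∃ c, ∀ᵐ y, g y = c :=
  (AddCircle.ergodic_add_right.2 ha).ae_eq_const_of_ae_eq_comp_ae hg.aestronglyMeasurable h

lemma eigen {a u : T} (ha : addOrderOf a = 0) {w : T → T} (hw : Measurable w)
    (h : ∀ᵐ y, w (y + a) = w y + u) : ∃ (k : ℤ) (c : T), u = k • a ∧ ∀ᵐ y, w y = k • y + c := by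
  have hv : (volume : Measure T) = AddCircle.haarAddCircle := by
    rw [AddCircle.volume_eq_smul_haarAddCircle]; simp
  let W : T → ℂ := fun y => fourier 1 (w y)
  have mW : Measurable W := (fourier 1).continuous.measurable.comp hw
  have nW : ∀ y, ‖W y‖ = 1 := fun y => by simp [W]
  have hL : MemLp W 2 AddCircle.haarAddCircle :=
    MemLp.of_bound mW.aestronglyMeasurable 1 (Eventually.of_forall fun y => (nW y).le)
  obtain ⟨k, hk⟩ : ∃ k, fourierCoeff W k ≠ 0 := by
    by_contra h0
    simp only [not_exists, not_not] at h0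
    have : hL.toLp W = 0 := by
      apply fourierBasis.repr.injective
      ext k
      rw [fourierBasis_repr, fourierCoeff_congr_ae hL.coeFn_toLp, h0]; simp
    have h1 := hL.coeFn_toLp
    rw [this] at h1
    obtain ⟨y, h2, h3⟩ := (h1.and (Lp.coeFn_zero ℂ 2 AddCircle.haarAddCircle)).exists
    have := nW y
    rw [← h2, h3] at this; simp at this
  have e : fourierCoeff W k = fourier (-k) a * fourier 1 u * fourierCoeff W k := by
    conv_lhs => rw [fourierCoeff, ← integral_add_right_eq_self _ a]
    rw [fourierCoeff, ← integral_const_mul]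
    refine integral_congr_ae ?_
    rw [← hv]
    filter_upwards [h] with y hy
    simp only [W, hy, fourier_apply, smul_add, AddCircle.toCircle_add, Circle.coe_mul, smul_eq_mul]
    ring
  have e2 : fourier (-k) a * fourier 1 u = 1 :=
    mul_right_cancel₀ hk (e.symm.trans (one_mul _).symm)
  have e3 : u = k • a := by
    simp only [fourier_apply, ← Circle.coe_mul, ← AddCircle.toCircle_add] at e2
    have := AddCircle.injective_toCircle (T := 1) one_ne_zero
      ((Circle.ext (e2.trans Circle.coe_one.symm)).trans AddCircle.toCircle_zero.symm)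
    rw [one_smul, neg_smul, neg_add_eq_zero] at this
    exact this.symm
  obtain ⟨c, hc⟩ := const_of_inv ha (g := fun y => w y - k • y) (by fun_prop) (by
    filter_upwards [h] with y hy
    rw [hy, e3, smul_add]; abel)
  exact ⟨k, c, e3, hc.mono fun y hy => by rw [← hy]; abel⟩

lemma exists_torsion {k : ℤ} (h1 : k ≠ 1) (h2 : k ≠ -1) : ∃ s : T, s ≠ 0 ∧ k • s = 0 := by
  by_cases h0 : k = 0
  · refine ⟨((1 / 2 : ℝ) : T), ?_, by simp [h0]⟩
    rw [Ne, AddCircle.coe_eq_zero_iff]
    rintro ⟨n, hn⟩
    simp only [zsmul_eq_mul, mul_one] at hn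
    have : (2 * n : ℝ) = 1 := by rw [hn]; norm_num
    have : (2 * n : ℤ) = 1 := by exact_mod_cast this
    omega
  · have hk : (k : ℝ) ≠ 0 := by exact_mod_cast h0
    refine ⟨((1 / k : ℝ) : T), ?_, ?_⟩
    · rw [Ne, AddCircle.coe_eq_zero_iff]
      rintro ⟨n, hn⟩
      simp only [zsmul_eq_mul, mul_one] at hn
      have : (k * n : ℝ) = 1 := by rw [hn]; field_simp
      have : (k * n : ℤ) = 1 := by exact_mod_cast this
      rcases Int.eq_one_or_neg_one_of_mul_eq_one this with h | h <;> contradiction
    · rw [← AddCircle.coe_zsmul, AddCircle.coe_eq_zero_iff]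
      exact ⟨1, by simp [hk]⟩

/-- probability that `F (y + t i) = p i` for all `i` -/
noncomputable def corr {I : Finset ℤ} (F : T → ℤ) (t : I → T) (p : I → ℤ) : ℝ≥0∞ :=
  volume {y : T | ∀ i, F (y + t i) = p i}

lemma corr_cont {I : Finset ℤ} {F : T → ℤ} (hF : Measurable F) (p : I → ℤ) :
    Continuous fun t : I → T => corr F t p := by
  have key : ∀ (i : I) (t : I → T), Tendsto (fun s : I → T => volume (symmDiff
      ((fun y => y + s i) ⁻¹' (F ⁻¹' {p i})) ((fun y => y + t i) ⁻¹' (F ⁻¹' {p i})))) (𝓝 t) (𝓝 0) :=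
    fun i t => by
      have hc : Continuous fun s : T => ContinuousMap.addRight s :=
        ContinuousMap.continuous_of_continuous_uncurry _ (continuous_snd.add continuous_fst)
      have := tendsto_measure_symmDiff_preimage_nhds_zero (μ := volume) (ν := volume)
        (s := F ⁻¹' {p i}) (hc.tendsto (t i))
        (Eventually.of_forall fun s => measurePreserving_add_right volume s)
        (measurePreserving_add_right volume (t i))
        (hF (measurableSet_singleton _)).nullMeasurableSet (measure_ne_top _ _)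
      exact this.comp ((continuous_apply i).tendsto t)
  refine continuous_iff_continuousAt.2 fun t => ?_
  have h0 := tendsto_finsetSum Finset.univ fun i _ => key i t
  simp only [Finset.sum_const_zero] at h0
  have le : ∀ s t : I → T, corr F s p ≤ corr F t p + ∑ i, volume (symmDiff
      ((fun y => y + s i) ⁻¹' (F ⁻¹' {p i})) ((fun y => y + t i) ⁻¹' (F ⁻¹' {p i}))) := fun s t => by
    refine le_trans (measure_mono fun y hy => ?_) ((measure_union_le _ _).trans
      (add_le_add le_rfl (measure_iUnion_fintype_le _ _)))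
    by_cases h : ∀ i, F (y + t i) = p i
    · exact Or.inl h
    · obtain ⟨i, hi⟩ := not_forall.1 h
      exact Or.inr (mem_iUnion.2 ⟨i, Or.inl ⟨hy i, hi⟩⟩)
  have h1 := ENNReal.Tendsto.sub (tendsto_const_nhds (x := corr F t p)) h0
    (Or.inl (measure_ne_top _ _))
  have h2 := (tendsto_const_nhds (x := corr F t p)).add h0
  rw [tsub_zero] at h1
  rw [add_zero] at h2
  refine tendsto_of_tendsto_of_tendsto_of_le_of_le h1 h2 (fun s => tsub_le_iff_right.2 ?_)
    fun s => le s t
  refine (le t s).trans (le_of_eq ?_)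
  congr 1
  exact Finset.sum_congr rfl fun i _ => by rw [symmDiff_comm]

lemma corr_plus {I : Finset ℤ} {F G : T → ℤ} {c : T} (h : ∀ᵐ y, F y = -G (y + c)) (t : I → T)
    (p : I → ℤ) : corr F t p = corr G t (-p) := by
  have h1 := ae_all_iff.2 fun i : I =>
    (measurePreserving_add_right volume (t i)).quasiMeasurePreserving.ae h
  rw [corr, corr, ← measure_preimage_add_right volume c {y : T | ∀ i, G (y + t i) = (-p) i}]
  refine measure_congr ?_
  filter_upwards [h1] with y hy
  refine propext (forall_congr' fun i => ?_)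
  change F (y + t i) = p i ↔ G (y + c + t i) = -p i
  rw [hy i, add_right_comm, neg_eq_iff_eq_neg]

lemma corr_neg {I : Finset ℤ} (G : T → ℤ) (t : I → T) (p : I → ℤ) :
    corr (fun y => G (-y)) t p = corr G (-t) p := by
  rw [corr, corr, ← Measure.measure_neg]
  congr 1; ext y; simp [add_comm]

lemma corr_minus {I : Finset ℤ} {F G : T → ℤ} {c : T} (h : ∀ᵐ y, F y = -G (-y + c)) (t : I → T)
    (p : I → ℤ) : corr F t p = corr G (-t) (-p) := by
  rw [← corr_neg]
  exact corr_plus (c := -c) (h.mono fun y hy => by rw [hy]; simp [add_comm]) t p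

end Pool.Agent.Lib.MP_a5d0b3_an
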