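import Pool.Agent.Lib.MP_a5d0b3_an.Fiber

open MeasureTheory Set Filter Topology
open scoped ENNReal

namespace Pool.Agent.Lib.MP_a5d0b3_an

abbrev Om := ℤ → ℤ

def Loc (I : Finset ℤ) (g : Om → ℝ) : Prop := ∀ ω ω' : Om, (∀ i ∈ I, ω i = ω' i) → g ω = g ω'

lemma sum_Icc_eq (f : ℤ → ℝ) (N : ℕ) :
    ∑ m ∈ Finset.Icc (1 : ℤ) N, f m = ∑ j ∈ Finset.range N, f (j + 1) := by
  induction N with
  | zero => simp
  | succ N ih =>
    rw [Finset.sum_range_succ, ← ih, Nat.cast_succ,
      ← Finset.insert_Icc_right_eq_Icc_add_one (by omega), Finset.sum_insert (by simp), add_comm]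

lemma measurableSet_cyl (I : Finset ℤ) (p : Om) : MeasurableSet {x : Om | ∀ i ∈ I, x i = p i} := by
  have : {x : Om | ∀ i ∈ I, x i = p i} = ⋂ i ∈ I, (fun x : Om => x i) ⁻¹' {p i} := by ext; simp
  rw [this]
  exact Finset.measurableSet_biInter _ fun i _ => measurable_pi_apply i (measurableSet_singleton _)

structure Gen (a : ℤ → ℤ) (κ : Measure Om) (M : ℕ → ℕ) : Prop where
  val : ∀ n, a n = 1 ∨ a n = -1
  top : Tendsto M atTop atTop
  lim : ∀ (F : Finset ℤ) (p : ℤ → ℤ), Tendsto (fun k : ℕ =>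
    ((((Finset.Icc (1 : ℤ) (M k)).filter (fun m : ℤ => ∀ i ∈ F, a (m + i) = p i)).card : ℝ)
      / (M k : ℝ))) atTop (𝓝 (κ {x : ℤ → ℤ | ∀ i ∈ F, x i = p i}).toReal)

variable {a : ℤ → ℤ} {κ : Measure Om} [IsProbabilityMeasure κ] {M : ℕ → ℕ}

omit [IsProbabilityMeasure κ] in
lemma Gen.lim' (H : Gen a κ M) (F : Finset ℤ) (p : Om) : Tendsto (fun k : ℕ =>
    (∑ j ∈ Finset.range (M k), if ∀ i ∈ F, a (j + 1 + i) = p i then (1 : ℝ) else 0) / M k) atTop
      (𝓝 (κ.real {x : ℤ → ℤ | ∀ i ∈ F, x i = p i})) := by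
  refine (H.lim F p).congr fun k => ?_
  rw [← sum_Icc_eq fun m => if ∀ i ∈ F, a (m + i) = p i then (1 : ℝ) else 0]
  simp

lemma Gen.ae_val (H : Gen a κ M) : ∀ᵐ ω ∂κ, ∀ i, ω i = 1 ∨ ω i = -1 := by
  refine ae_all_iff.2 fun i => ?_
  have h1 := (H.lim' {i} fun _ => 1).add (H.lim' {i} fun _ => -1)
  have h2 : κ.real {x : Om | ∀ j ∈ ({i} : Finset ℤ), x j = 1} +
      κ.real {x : Om | ∀ j ∈ ({i} : Finset ℤ), x j = -1} = 1 := by
    refine tendsto_nhds_unique h1 (tendsto_const_nhds.congr' ?_)
    filter_upwards [H.top.eventually_gt_atTop 0] with k hk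
    rw [← add_div, ← Finset.sum_add_distrib, Finset.sum_congr rfl (g := fun _ => 1) fun j _ => by
      rcases H.val (j + 1 + i) with h | h <;> simp [h]]
    simp [hk.ne']
  rw [← measureReal_union (disjoint_left.2 fun x h1 h2 => by
    simp only [Finset.mem_singleton, forall_eq, mem_ofPred_eq] at h1 h2; omega)
    (measurableSet_cyl _ _)] at h2
  have h3 := (prob_compl_eq_zero_iff ((measurableSet_cyl {i} fun _ => 1).union
    (measurableSet_cyl {i} fun _ => -1))).2 ((ENNReal.toReal_eq_one_iff _).1 h2)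
  filter_upwards [measure_eq_zero_iff_ae_notMem.1 h3] with ω hω
  simpa [or_iff_not_imp_left] using hω

lemma Gen.conv (H : Gen a κ M) {I : Finset ℤ} {g : Om → ℝ} (hg : Loc I g) :
    Tendsto (fun k : ℕ => (∑ j ∈ Finset.range (M k), g fun i => a (j + 1 + i)) / M k) atTop
      (𝓝 (∫ ω, g ω ∂κ)) := by
  classical
  let P : Finset (I → ℤ) := Fintype.piFinset fun _ => {1, -1}
  let e : (I → ℤ) → Om := fun p i => if h : i ∈ I then p ⟨i, h⟩ else 0
  have key : ∀ ω : Om, (∀ i, ω i = 1 ∨ ω i = -1) →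
      g ω = ∑ p ∈ P, g (e p) * if ∀ i ∈ I, ω i = e p i then 1 else 0 := fun ω hω => by
    rw [Finset.sum_eq_single (fun i : I => ω i)]
    · rw [if_pos fun i hi => by simp [e, hi], mul_one]
      exact hg _ _ fun i hi => by simp [e, hi]
    · intro p _ hp
      rw [if_neg, mul_zero]
      intro h
      exact hp (funext fun i => by simpa [e] using (h i i.2).symm)
    · intro h
      exact absurd (Fintype.mem_piFinset.2 fun i => by simpa using hω i) h
  have e1 : ∫ ω, g ω ∂κ = ∑ p ∈ P, g (e p) * κ.real {x : Om | ∀ i ∈ I, x i = e p i} := by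
    rw [integral_congr_ae (H.ae_val.mono key), integral_finsetSum]
    · refine Finset.sum_congr rfl fun p _ => ?_
      rw [integral_const_mul, ← integral_indicator_one (measurableSet_cyl _ _)]
      congr 2; funext ω; simp [indicator]
    · intro p _
      refine Integrable.const_mul ?_ _
      refine ((integrable_const (1 : ℝ)).indicator (measurableSet_cyl I (e p))).congr
        (Eventually.of_forall fun ω => by simp [indicator])
  rw [e1]
  refine (tendsto_finsetSum P fun p _ => (H.lim' I (e p)).const_mul (g (e p))).congr fun k => ?_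
  rw [Finset.sum_congr rfl fun (j : ℕ) _ => key (fun i => a (j + 1 + i)) fun i => H.val _,
    Finset.sum_comm, Finset.sum_div]
  refine Finset.sum_congr rfl fun p _ => ?_
  rw [← Finset.mul_sum, mul_div_assoc]

/-- alternating average of the shifts -/
noncomputable def altAvg (g : Om → ℝ) (H : ℕ) (ω : Om) : ℝ :=
  (∑ h ∈ Finset.range H, (-1) ^ h * g fun i => ω (i + h)) / H

lemma shift_sum {u : ℕ → ℝ} (hu : ∀ j, |u j| ≤ 1) (N h : ℕ) :
    |∑ j ∈ Finset.range N, u j - ∑ j ∈ Finset.range N, u (j + h)| ≤ 2 * h := by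
  have e1 := Finset.sum_range_add u N h
  have e2 := Finset.sum_range_add u h N
  rw [add_comm h N, e1] at e2
  simp only [add_comm h] at e2
  have b : ∀ v : ℕ → ℝ, (∀ j, |v j| ≤ 1) → |∑ j ∈ Finset.range h, v j| ≤ h := fun v hv =>
    (Finset.abs_sum_le_sum_abs _ _).trans (by
      simpa using Finset.sum_le_card_nsmul (Finset.range h) _ 1 fun j _ => hv j)
  have b1 := abs_le.1 (b u hu)
  have b2 := abs_le.1 (b (fun x => u (N + x)) fun j => hu _)
  rw [abs_le]; constructor <;> linarith [b1.1, b1.2, b2.1, b2.2]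

lemma Gen.alt (H : Gen a κ M) {I : Finset ℤ} {g : Om → ℝ} (hg : Loc I g) (hb : ∀ ω, |g ω| ≤ 1)
    (hm : Tendsto (fun n => ∫ ω, |altAvg g n ω| ∂κ) atTop (𝓝 0)) :
    Tendsto (fun k : ℕ => (∑ j ∈ Finset.range (M k), (-1) ^ j * g fun i => a (j + 1 + i)) / M k)
      atTop (𝓝 0) := by
  classical
  rw [Metric.tendsto_nhds]
  intro ε hε
  obtain ⟨n, n1, n2⟩ := ((hm.eventually_lt_const hε).and (eventually_gt_atTop 0)).exists
  have l : Loc ((Finset.range n).biUnion fun h => I.image (· + (h : ℤ)))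
      fun ω => |altAvg g n ω| := fun ω ω' h => by
    unfold altAvg
    beta_reduce
    congr 2
    refine Finset.sum_congr rfl fun j hj => ?_
    rw [hg _ _ fun i hi => h _ (Finset.mem_biUnion.2 ⟨j, hj, Finset.mem_image_of_mem _ hi⟩)]
  have t1 := (H.conv l).add ((tendsto_const_div_atTop_nhds_zero_nat (2 * n : ℝ)).comp H.top)
  rw [add_zero] at t1
  filter_upwards [t1.eventually_lt_const n1, H.top.eventually_gt_atTop 0] with k hk k0
  refine lt_of_le_of_lt ?_ hk
  have k1 : (0 : ℝ) < M k := by exact_mod_cast k0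
  have n3 : (0 : ℝ) < n := by exact_mod_cast n2
  rw [Real.dist_eq, sub_zero, abs_div, abs_of_pos k1, Function.comp, ← add_div]
  gcongr
  set u : ℕ → ℝ := fun j => (-1) ^ j * g fun i => a (j + 1 + i) with hu
  have ub : ∀ j, |u j| ≤ 1 := fun j => by simpa [hu, abs_mul] using hb _
  have e : ∀ j : ℕ, |altAvg g n fun i => a (j + 1 + i)| = |(∑ h ∈ Finset.range n, u (j + h)) / n| := by
    intro j
    have : ∑ h ∈ Finset.range n, u (j + h) =
        (-1) ^ j * ∑ h ∈ Finset.range n, (-1) ^ h * g fun i => a (j + 1 + (i + h)) := by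
      rw [Finset.mul_sum]
      refine Finset.sum_congr rfl fun h _ => ?_
      simp only [hu, pow_add, mul_assoc]
      congr 3; funext i; push_cast; ring_nf
    rw [this, altAvg, mul_div_assoc, abs_mul]; simp
  simp only [e]
  have e2 : ∑ j ∈ Finset.range (M k), u j =
      ∑ j ∈ Finset.range (M k), (∑ h ∈ Finset.range n, u (j + h)) / n +
      (∑ h ∈ Finset.range n, (∑ j ∈ Finset.range (M k), u j -
        ∑ j ∈ Finset.range (M k), u (j + h))) / n := by
    rw [← Finset.sum_div, Finset.sum_comm, ← add_div, ← Finset.sum_add_distrib]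
    simp; field_simp
  rw [e2]
  refine (abs_add_le _ _).trans (add_le_add (Finset.abs_sum_le_sum_abs _ _) ?_)
  rw [abs_div, abs_of_pos n3, div_le_iff₀ n3]
  refine (Finset.abs_sum_le_sum_abs _ _).trans ?_
  have := Finset.sum_le_card_nsmul (Finset.range n) _ (2 * n : ℝ) fun h hh =>
    (shift_sum ub (M k) h).trans (by
      have : (h : ℝ) ≤ n := by exact_mod_cast (Finset.mem_range.1 hh).le
      linarith)
  simpa [mul_comm] using this

lemma odd_sum {b : ℕ → ℝ} (hb : ∀ j, 0 ≤ b j) (N : ℕ) :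
    ∑ j ∈ Finset.range N, (1 - (-1) ^ j) / 2 * b j ≤ ∑ j ∈ Finset.range N, b (2 * j + 1) := by
  have e : ∀ N, ∑ j ∈ Finset.range (2 * N), (1 - (-1) ^ j) / 2 * b j =
      ∑ j ∈ Finset.range N, b (2 * j + 1) := fun N => by
    induction N with
    | zero => simp
    | succ N ih =>
      rw [mul_add, mul_one, Finset.sum_range_succ, Finset.sum_range_succ, ih, Finset.sum_range_succ]
      simp [pow_succ]
  rw [← e]
  refine Finset.sum_le_sum_of_subset_of_nonneg (Finset.range_mono (by omega)) fun j _ _ => ?_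
  refine mul_nonneg ?_ (hb j)
  rcases neg_one_pow_eq_or ℝ j with h | h <;> simp [h]

def dil (ω : Om) : Om := fun n => -ω (2 * n)

lemma measurable_dil : Measurable dil := by unfold dil; fun_prop

theorem Gen.dil_ac (H : Gen a κ M) (h2 : ∀ n, n ≠ 0 → a (2 * n) = -a n)
    (hm : ∀ g : Om → ℝ, Measurable g → (∀ ω, |g ω| ≤ 1) →
      Tendsto (fun n => ∫ ω, |altAvg g n ω| ∂κ) atTop (𝓝 0)) : κ.map dil ≪ κ := by
  classical
  have key : ∀ C ∈ measurableCylinders (fun _ : ℤ => ℤ), κ.map dil C ≤ 2 * κ C := by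
    intro C hC
    have mC := MeasurableSet.of_mem_measurableCylinders hC
    obtain ⟨I, S, -, rfl⟩ := (mem_measurableCylinders C).1 hC
    have l1 : Loc I ((cylinder I S).indicator 1) := fun ω ω' h => by
      have : I.restrict ω = I.restrict ω' := funext fun i => h i i.2
      simp only [indicator, mem_cylinder, this, Pi.one_apply]
    have l2 : Loc (I.image (2 * ·)) ((dil ⁻¹' cylinder I S).indicator 1) := fun ω ω' h =>
      l1 (dil ω) (dil ω') fun i hi => by
        simp only [dil, h _ (Finset.mem_image_of_mem _ hi)]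
    have b : ∀ ω, |(dil ⁻¹' cylinder I S).indicator (1 : Om → ℝ) ω| ≤ 1 := fun ω => by
      by_cases h : ω ∈ dil ⁻¹' cylinder I S <;> simp [h]
    have t1 := ((H.conv l2).sub (H.alt l2 b (hm _
      (measurable_one.indicator (measurable_dil mC)) b))).div_const 2
    have t2 := (H.conv l1).add ((tendsto_const_div_atTop_nhds_zero_nat (I.card : ℝ)).comp H.top)
    have := le_of_tendsto_of_tendsto' t1 t2 fun k => by
      rw [Function.comp, ← add_div, ← sub_div, div_right_comm]
      gcongr
      rw [← Finset.sum_sub_distrib, Finset.sum_div]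
      refine le_trans (le_of_eq (Finset.sum_congr rfl fun j _ => by ring)) ((odd_sum
        (b := fun j : ℕ => (dil ⁻¹' cylinder I S).indicator (1 : Om → ℝ) fun i => a (j + 1 + i))
        (fun j => indicator_nonneg (fun _ _ => zero_le_one) _) (M k)).trans ?_)
      have c : (∑ j ∈ Finset.range (M k), if -((j : ℤ) + 1) ∈ I then (1 : ℝ) else 0) ≤ I.card := by
        rw [Finset.sum_boole, Nat.cast_le]
        exact Finset.card_le_card_of_injOn (fun j : ℕ => -((j : ℤ) + 1))
          (fun j hj => (Finset.mem_filter.1 hj).2) fun x _ y _ h => by simpa using h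
      refine le_trans ?_ (add_le_add le_rfl c)
      rw [← Finset.sum_add_distrib]
      refine Finset.sum_le_sum fun j _ => ?_
      split_ifs with h
      · exact (le_abs_self _).trans ((b _).trans (le_add_of_nonneg_left
          (indicator_nonneg (fun _ _ => zero_le_one) _)))
      · rw [add_zero]
        refine le_of_eq (l1 (dil _) _ fun i hi => ?_)
        have : (j : ℤ) + 1 + i ≠ 0 := fun e => h (by rwa [show -((j : ℤ) + 1) = i by omega])
        rw [dil, ← neg_neg (a (j + 1 + i)), ← h2 _ this]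
        congr 2; push_cast; ring
    rw [integral_indicator_one mC, integral_indicator_one (measurable_dil mC), sub_zero,
      add_zero] at this
    rw [Measure.map_apply measurable_dil mC, ← ofReal_measureReal (μ := κ),
      ← ofReal_measureReal (μ := κ) (s := cylinder I S),
      ← ENNReal.ofReal_ofNat, ← ENNReal.ofReal_mul (by norm_num)]
    exact ENNReal.ofReal_le_ofReal (by linarith)
  refine Measure.AbsolutelyContinuous.mk fun C hC h0 => ?_
  refine le_antisymm (ENNReal.le_of_forall_pos_le_add fun ε hε _ => ?_) zero_le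
  obtain ⟨t, ht, h⟩ := exists_measure_symmDiff_lt_of_generateFrom_isSetRing (μ := κ.map dil + κ)
    isSetRing_measurableCylinders ⟨{univ}, countable_singleton _, by
      simpa using univ_mem_measurableCylinders (fun _ : ℤ => ℤ), by simp⟩ generateFrom_measurableCylinders.symm hC
    (ε := ε / 3) (by simpa using hε.ne')
  rw [Measure.add_apply] at h
  have a1 : κ.map dil C ≤ κ.map dil t + κ.map dil (symmDiff t C) :=
    (measure_mono fun x hx => by
      by_cases h : x ∈ t
      · exact Or.inl h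
      · exact Or.inr (Or.inr ⟨hx, h⟩)).trans (measure_union_le _ _)
  have a2 : κ t ≤ κ C + κ (symmDiff t C) :=
    (measure_mono fun x hx => by
      by_cases h : x ∈ C
      · exact Or.inl h
      · exact Or.inr (Or.inl ⟨hx, h⟩)).trans (measure_union_le _ _)
  rw [h0, zero_add] at a2
  calc κ.map dil C ≤ 2 * (ε / 3) + ε / 3 :=
        a1.trans (add_le_add ((key t ht).trans (by gcongr; exact a2.trans (le_add_self.trans h.le)))
          (le_self_add.trans h.le))
    _ = 0 + ε := by
        rw [zero_add, two_mul, ENNReal.add_thirds]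

end Pool.Agent.Lib.MP_a5d0b3_an
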