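import Pool.Agent.Lib.MP_a5d0b3_an.Freq

open MeasureTheory Set Filter Topology
open scoped ENNReal

namespace Pool.Agent.Lib.MP_a5d0b3_an

lemma probT : IsProbabilityMeasure (volume : Measure T) := ⟨UnitAddCircle.measure_univ⟩

attribute [local instance] probT

lemma probTT : IsProbabilityMeasure (volume : Measure (T × T)) :=
  inferInstanceAs (IsProbabilityMeasure ((volume : Measure T).prod (volume : Measure T)))

attribute [local instance] probTT

def Rn (n : ℤ) (z : T × T) : T × T := (z.1, z.2 + n • z.1)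

lemma Rn_mp (n : ℤ) : MeasurePreserving (Rn n) volume volume :=
  MeasurePreserving.skew_product (f := id) (g := fun (x y : T) => y + n • x)
    (MeasurePreserving.id _) (by fun_prop)
    (Eventually.of_forall fun _ => map_add_right_eq_self volume _)

lemma Rn_add (m n : ℤ) (z : T × T) : Rn m (Rn n z) = Rn (n + m) z := by
  simp [Rn, add_smul, add_assoc]

lemma names {ψ : T × T → Om} (h : ∀ᵐ z : T × T, ψ (z.1, z.1 + z.2) = fun n => ψ z (n + 1)) (n : ℤ) :
    ∀ᵐ z, ψ (Rn n z) = fun i => ψ z (i + n) := by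
  have h1 : ∀ n, ∀ᵐ z, ψ (Rn (n + 1) z) = fun i => ψ (Rn n z) (i + 1) := fun n => by
    filter_upwards [(Rn_mp n).quasiMeasurePreserving.ae h] with z hz
    rw [← hz, ← Rn_add]; simp [Rn, add_comm]
  induction n using Int.induction_on with
  | zero => simp [Rn]
  | succ n ih =>
    filter_upwards [h1 n, ih] with z a b
    rw [a, b]; funext i; simp only [add_assoc, add_comm (1 : ℤ)]
  | pred n ih =>
    filter_upwards [h1 (-n - 1), ih] with z a b
    rw [sub_add_cancel, b] at a
    funext i
    have := congrFun a (i - 1)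
    simp only [sub_add_cancel] at this
    rw [← this]; congr 1; ring

lemma vN {E : Type} [NormedAddCommGroup E] [InnerProductSpace ℝ E] [CompleteSpace E]
    (f : E →L[ℝ] E) (hf : ‖f‖ ≤ 1) (x : E) :
    ∃ y, f y = y ∧ Tendsto (fun n => birkhoffAverage ℝ f id n x) atTop (𝓝 y) :=
  ⟨_, Subtype.property (p := fun v => v ∈ f.eqLocus (1 : E →L[ℝ] E)) _,
    f.tendsto_birkhoffAverage_orthogonalProjection hf x⟩

lemma mean_alt {h : T × T → ℝ} (hm : Measurable h) (hb : ∀ z, |h z| ≤ 1) :
    Tendsto (fun n : ℕ => ∫ z, |(∑ j ∈ Finset.range n, (-1) ^ j * h (Rn j z)) / n|) atTop (𝓝 0) := by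
  have hL : MemLp h 2 volume := MemLp.of_bound hm.aestronglyMeasurable 1 (Eventually.of_forall hb)
  let V := (Lp.compMeasurePreservingₗᵢ ℝ (E := ℝ) (p := 2) (Rn 1) (Rn_mp 1)).toContinuousLinearMap
  have hV : ∀ v, (-V) v =ᵐ[volume] fun z => -v (Rn 1 z) := fun v => by
    filter_upwards [Lp.coeFn_neg (V v), Lp.coeFn_compMeasurePreserving v (Rn_mp 1)] with z a b
    exact a.trans (congrArg Neg.neg b)
  have fix : ∀ v, (-V) v = v → v = 0 := fun v hv => by
    have h1 := hV v
    rw [hv] at h1
    have mv := (Lp.stronglyMeasurable v).measurable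
    refine Lp.eq_zero_iff_ae_eq_zero.2 ?_
    refine (Measure.ae_prod_iff_ae_ae (p := fun z => v z = 0)
      (measurableSet_eq_fun mv measurable_const)).2 ?_
    filter_upwards [Measure.ae_ae_of_ae_prod h1, ae_free] with x hx fx
    simp only [Rn, one_smul] at hx
    have hx' := (measurePreserving_add_right volume x).quasiMeasurePreserving.ae hx
    obtain ⟨c, hc⟩ := const_of_inv (free_zsmul fx two_ne_zero) (g := fun y => v (x, y))
      (mv.comp measurable_prodMk_left) (by
        filter_upwards [hx, hx'] with y a b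
        rw [a, b, two_smul, add_assoc, neg_neg])
    filter_upwards [hc, hx, (measurePreserving_add_right volume x).quasiMeasurePreserving.ae hc]
      with y a b c
    linarith
  obtain ⟨y, hy, t⟩ := vN (-V) (by
    rw [norm_neg]; exact LinearIsometry.norm_toContinuousLinearMap_le _) (hL.toLp h)
  replace t := t.norm
  rw [fix y hy, norm_zero] at t
  have it : ∀ j : ℕ, (-V)^[j] (hL.toLp h) =ᵐ[volume] fun z => (-1) ^ j * h (Rn j z) := fun j => by
    induction j with
    | zero => simpa [Rn] using hL.coeFn_toLp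
    | succ j ih =>
      rw [Function.iterate_succ_apply']
      filter_upwards [hV ((-V)^[j] (hL.toLp h)), (Rn_mp 1).quasiMeasurePreserving.ae ih] with z a b
      rw [a, b, Rn_add, pow_succ]; push_cast; rw [add_comm (1 : ℤ)]; ring
  refine squeeze_zero (fun n => integral_nonneg fun _ => abs_nonneg _) (fun n => ?_) t
  set w := birkhoffAverage ℝ (-V) id n (hL.toLp h) with hw
  have e : w =ᵐ[volume] fun z => (∑ j ∈ Finset.range n, (-1) ^ j * h (Rn j z)) / n := by
    rw [hw, birkhoffAverage, birkhoffSum]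
    filter_upwards [Lp.coeFn_smul (n : ℝ)⁻¹ (∑ k ∈ Finset.range n, id ((-V)^[k] (hL.toLp h))),
      Lp.coeFn_finsetSum (Finset.range n) fun k => id ((-V)^[k] (hL.toLp h)),
      ae_all_iff.2 it] with z a b c
    rw [a, Pi.smul_apply, b, Finset.sum_apply, smul_eq_mul, div_eq_inv_mul]
    simp only [id, c]
  have e2 : ∫ z, |(∑ j ∈ Finset.range n, (-1) ^ j * h (Rn j z)) / n| = ∫ z, ‖w z‖ :=
    integral_congr_ae (e.mono fun z hz => by simp only [hz, Real.norm_eq_abs])
  rw [e2, integral_norm_eq_lintegral_enorm (Lp.aestronglyMeasurable w),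
    ← eLpNorm_one_eq_lintegral_enorm, Lp.norm_def]
  exact ENNReal.toReal_mono (Lp.eLpNorm_ne_top w)
    (eLpNorm_le_eLpNorm_of_exponent_le (by norm_num) (Lp.aestronglyMeasurable w))

structure Good (φ : Om → T × T) (ψ : T × T → Om) (x : T) : Prop where
  a : addOrderOf x = 0
  b : ∀ᵐ y, ∀ n : ℤ, ψ (x, y) n = ψ (x, y + n • x) 0
  c : ∀ᵐ y, φ (ψ (x, y)) = (x, y)
  d : ∀ᵐ y, φ (dil (ψ (x, y + (2 : ℤ) • x))) =
    ((φ (dil (ψ (x, y)))).1, (φ (dil (ψ (x, y)))).1 + (φ (dil (ψ (x, y)))).2)
  e : ∀ᵐ y, ψ (x, y) 0 = -ψ (φ (dil (ψ (x, y)))) 0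

variable {φ : Om → T × T} {ψ : T × T → Om}

lemma Good.cases (mφ : Measurable φ) (mψ : Measurable ψ) {x : T} (H : Good φ ψ x) :
    (∃ c, ∀ᵐ y, ψ (x, y) 0 = -ψ ((2 : ℤ) • x, y + c) 0) ∨
      ∃ c, ∀ᵐ y, ψ (x, y) 0 = -ψ (-((2 : ℤ) • x), -y + c) 0 := by
  have m : Measurable fun y => φ (dil (ψ (x, y))) :=
    mφ.comp (measurable_dil.comp (mψ.comp measurable_prodMk_left))
  have f2 := free_zsmul H.a two_ne_zero
  obtain ⟨u, hu⟩ := const_of_inv f2 m.fst (H.d.mono fun y hy => by rw [hy])
  obtain ⟨k, c, e1, e2⟩ := eigen (u := u) f2 m.snd (by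
    filter_upwards [H.d, hu] with y a b
    rw [a, b, add_comm])
  have e3 : ∀ᵐ y, ψ (x, y) 0 = -ψ (k • (2 : ℤ) • x, k • y + c) 0 := by
    filter_upwards [H.e, hu, e2] with y a b d
    rw [a, ← e1, ← b, ← d]
  by_cases h1 : k = 1
  · left; exact ⟨c, by simpa [h1] using e3⟩
  by_cases h2 : k = -1
  · right; exact ⟨c, by simpa [h2] using e3⟩
  exfalso
  obtain ⟨s, s0, hs⟩ := exists_torsion h1 h2
  have q := fun t : T => (measurePreserving_add_right volume t).quasiMeasurePreserving
  have e4 : ∀ᵐ y, ψ (x, y + s) 0 = ψ (x, y) 0 := by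
    filter_upwards [e3, (q s).ae e3] with y a b
    rw [a, b, smul_add, hs, add_zero]
  obtain ⟨y, a, b, d, e, f⟩ := (H.b.and (((q s).ae H.b).and (H.c.and (((q s).ae H.c).and
    (ae_all_iff.2 fun n : ℤ => (q (n • x)).ae e4))))).exists
  have : ψ (x, y + s) = ψ (x, y) := funext fun n => by rw [a n, b n, ← f n, add_right_comm]
  rw [this, d] at e
  exact s0 (by simpa using e)

lemma Good.not_refl {x c : T} (H : Good φ ψ x) (H' : Good φ ψ (-x))
    (h : ∀ᵐ y, ψ (-x, y) 0 = ψ (x, -y + c) 0) : False := by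
  have q := fun t : T => (measurePreserving_add_right volume t).quasiMeasurePreserving
  have r := ((measurePreserving_add_right volume c).comp
    (Measure.measurePreserving_neg (volume : Measure T))).quasiMeasurePreserving
  obtain ⟨y, a, b, d, e, f⟩ := (H'.b.and ((r.ae H.b).and (H'.c.and ((r.ae H.c).and
    (ae_all_iff.2 fun n : ℤ => (q (n • -x)).ae h))))).exists
  simp only [Function.comp] at b e
  have : ψ (-x, y) = ψ (x, -y + c) := funext fun n => by
    rw [a n, b n, f n]; congr 2; rw [smul_neg]; abel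
  rw [this, e] at d
  have h2 : (2 : ℤ) • x = 0 := by
    have := congrArg Prod.fst d
    rw [two_smul]; exact add_eq_zero_iff_eq_neg.2 this
  have := free_zsmul H.a two_ne_zero
  rw [h2] at this; simp at this

noncomputable def Gam (ψ : T × T → Om) {I : Finset ℤ} (x : T) (t : I → T) (p : I → ℤ) : ℝ≥0∞ :=
  corr (fun y => ψ (x, y) 0) t p + corr (fun y => ψ (-x, y) 0) (-t) p

lemma Good.gam (mφ : Measurable φ) (mψ : Measurable ψ) {x : T} (H : Good φ ψ x)
    (H' : Good φ ψ (-x)) {I : Finset ℤ} (t : I → T) (p : I → ℤ) :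
    Gam ψ x t p = Gam ψ ((2 : ℤ) • x) t (-p) := by
  have r := fun c : T => ((measurePreserving_add_right volume c).comp
    (Measure.measurePreserving_neg (volume : Measure T))).quasiMeasurePreserving
  rcases H.cases mφ mψ with ⟨c, h⟩ | ⟨c, h⟩ <;> rcases H'.cases mφ mψ with ⟨c', h'⟩ | ⟨c', h'⟩ <;>
    simp only [smul_neg, neg_neg] at h'
  · rw [Gam, Gam, corr_plus (G := fun y => ψ ((2 : ℤ) • x, y) 0) h,
      corr_plus (G := fun y => ψ (-((2 : ℤ) • x), y) 0) h']
  · refine (H.not_refl H' (c := c' - c) ?_).elim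
    filter_upwards [h', (r (c' - c)).ae h] with y a b
    simp only [Function.comp] at b
    rw [a, b]; congr 3; abel
  · refine (H.not_refl H' (c := c - c') ?_).elim
    filter_upwards [h', (r (c - c')).ae h] with y a b
    simp only [Function.comp] at b
    rw [a, b]; congr 3; abel
  · rw [Gam, Gam, corr_minus (G := fun y => ψ (-((2 : ℤ) • x), y) 0) h,
      corr_minus (G := fun y => ψ ((2 : ℤ) • x, y) 0) h', neg_neg, add_comm]

lemma meas_corr {f : T × T → ℤ} (hf : Measurable f) {I : Finset ℤ} {τ : T → I → T}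
    (hτ : Measurable τ) (p : I → ℤ) :
    MeasurableSet {z : T × T | ∀ i, f (z.1, z.2 + τ z.1 i) = p i} ∧
      Measurable fun x => corr (fun y => f (x, y)) (τ x) p := by
  have : MeasurableSet {z : T × T | ∀ i, f (z.1, z.2 + τ z.1 i) = p i} := by
    rw [ofPred_forall]
    exact MeasurableSet.iInter fun i => measurableSet_eq_fun (by fun_prop) measurable_const
  exact ⟨this, measurable_measure_prodMk_left this⟩

lemma law_cyl {f : T × T → ℤ} (hf : Measurable f) {I : Finset ℤ} (p : I → ℤ) :
    ((volume.map fun (z : T × T) (n : ℤ) => f (z.1, z.2 + n • z.1)).map I.restrict) {p} =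
      ∫⁻ x, corr (fun y => f (x, y)) (fun i : I => (i : ℤ) • x) p := by
  have hm : Measurable fun (z : T × T) (n : ℤ) => f (z.1, z.2 + n • z.1) := by fun_prop
  rw [Measure.map_map (Finset.measurable_restrict I) hm, Measure.map_apply
    ((Finset.measurable_restrict I).comp hm) (measurableSet_singleton _)]
  have := Measure.prod_apply (μ := volume) (ν := volume)
    (meas_corr hf (τ := fun x (i : I) => (i : ℤ) • x) (by fun_prop) p).1
  refine Eq.trans ?_ this
  congr 1; ext z; simp [funext_iff]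

lemma ext_restrict {μ ν : Measure Om} [IsFiniteMeasure ν]
    (h : ∀ (I : Finset ℤ) (p : I → ℤ), μ.map I.restrict {p} = ν.map I.restrict {p}) : μ = ν :=
  IsProjectiveLimit.unique (P := fun I => ν.map I.restrict)
    (fun I => Measure.ext_of_singleton (h I)) fun _ => rfl

theorem main {a : ℤ → ℤ} {κ : Measure Om} [IsProbabilityMeasure κ] {M : ℕ → ℕ} (H : Gen a κ M)
    (h2 : ∀ n, n ≠ 0 → a (2 * n) = -a n) (h3 : MeasurePreserving φ κ volume)
    (h4 : MeasurePreserving ψ volume κ)
    (h5 : ∀ᵐ ω ∂κ, φ (fun n => ω (n + 1)) = ((φ ω).1, (φ ω).1 + (φ ω).2))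
    (h6 : ∀ᵐ z : T × T, ψ (z.1, z.1 + z.2) = fun n => ψ z (n + 1))
    (h7 : ∀ᵐ ω ∂κ, ψ (φ ω) = ω) (h8 : ∀ᵐ z : T × T, φ (ψ z) = z) :
    ∃ F G : T → ℤ, Measurable F ∧ Measurable G ∧
      κ = (2⁻¹ : ℝ≥0∞) • (volume.map fun (z : T × T) (n : ℤ) => F (z.2 + n • z.1)) +
        (2⁻¹ : ℝ≥0∞) • (volume.map fun (z : T × T) (n : ℤ) => G (z.2 + n • z.1)) ∧
      κ.map (fun ω => -ω) = κ := by
  have mφ := h3.measurable
  have mψ := h4.measurable
  have nm := ae_all_iff.2 (names h6)
  have ac := H.dil_ac h2 fun g mg bg => by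
    refine (mean_alt (mg.comp mψ) fun z => bg _).congr fun n => ?_
    have : Measurable fun ω => |altAvg g n ω| := by unfold altAvg; fun_prop
    rw [← h4.map_eq, integral_map mψ.aemeasurable this.aestronglyMeasurable]
    refine integral_congr_ae (nm.mono fun z hz => ?_)
    simp only [altAvg, Function.comp, hz]
  have q : Measure.QuasiMeasurePreserving (dil ∘ ψ) volume κ :=
    (Measure.QuasiMeasurePreserving.mk measurable_dil ac).comp h4.quasiMeasurePreserving
  have nm' : ∀ᵐ z : T × T, ∀ n : ℤ, ψ z n = ψ (z.1, z.2 + n • z.1) 0 :=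
    nm.mono fun z hz n => by have := congrFun (hz n) 0; simp only [zero_add] at this; exact this.symm
  have good : ∀ᵐ x, Good φ ψ x := by
    have d : ∀ᵐ z : T × T, φ (dil (ψ (z.1, z.2 + (2 : ℤ) • z.1))) =
        ((φ (dil (ψ z))).1, (φ (dil (ψ z))).1 + (φ (dil (ψ z))).2) := by
      filter_upwards [nm, q.ae h5] with z a b
      simp only [Function.comp] at b
      rw [← b, show ψ (z.1, z.2 + (2 : ℤ) • z.1) = _ from a 2]
      congr 1; funext n; simp [dil, mul_add]
    have e : ∀ᵐ z : T × T, ψ z 0 = -ψ (φ (dil (ψ z))) 0 := by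
      filter_upwards [q.ae h7] with z b
      rw [show ψ (φ (dil (ψ z))) = _ from b]; simp [dil]
    filter_upwards [ae_free, Measure.ae_ae_of_ae_prod nm', Measure.ae_ae_of_ae_prod h8,
      Measure.ae_ae_of_ae_prod d, Measure.ae_ae_of_ae_prod e] with x a b c d e using ⟨a, b, c, d, e⟩
  have mf : Measurable fun z => ψ z 0 := (measurable_pi_apply 0).comp mψ
  have mf' : Measurable fun z : T × T => ψ (-z.1, z.2) 0 := mf.comp (by fun_prop)
  have rel : ∀ᵐ x, ∀ (I : Finset ℤ) (t : I → T) (p : I → ℤ),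
      Gam ψ x t p = Gam ψ ((2 : ℤ) • x) t (-p) := by
    filter_upwards [good, (Measure.measurePreserving_neg volume).quasiMeasurePreserving.ae good]
      with x a b I t p using a.gam mφ mψ b t p
  have dbl := (AddCircle.ergodic_zsmul (T := 1) (n := 2) (by norm_num)).quasiMeasurePreserving
  have cst : ∀ (I : Finset ℤ) (t : I → T) (p : I → ℤ), ∃ c, ∀ᵐ x, Gam ψ x t p = c := by
    intro I t p
    refine (AddCircle.ergodic_zsmul (n := 4) (by norm_num)).ae_eq_const_of_ae_eq_comp_ae
      (((meas_corr mf measurable_const p).2.add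
        (meas_corr mf' measurable_const p).2).aestronglyMeasurable) ?_
    filter_upwards [rel, dbl.ae rel] with x a b
    have := (a I t p).trans (b I t (-p))
    rw [neg_neg, ← mul_smul] at this
    exact this.symm
  choose c hc using cst
  have all : ∀ᵐ x, ∀ (I : Finset ℤ) (p : I → ℤ) (n : ℕ),
      Gam ψ x (TopologicalSpace.denseSeq (I → T) n) p = c I _ p :=
    ae_all_iff.2 fun I => ae_all_iff.2 fun p => ae_all_iff.2 fun n => hc I _ p
  obtain ⟨x0, a1, a2, a3⟩ := (all.and ((dbl.ae all).and rel)).exists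
  have cont : ∀ x (I : Finset ℤ) (p : I → ℤ), Continuous fun t => Gam ψ x t p := fun x I p =>
    (corr_cont (mf.comp measurable_prodMk_left) p).add
      ((corr_cont (mf.comp measurable_prodMk_left) p).comp continuous_neg)
  have same : ∀ x, (∀ (I : Finset ℤ) (p : I → ℤ) (n : ℕ),
      Gam ψ x (TopologicalSpace.denseSeq (I → T) n) p = c I _ p) →
      ∀ (I : Finset ℤ) (t : I → T) (p : I → ℤ), Gam ψ x t p = Gam ψ x0 t p := fun x hx I t p =>
    congrFun ((TopologicalSpace.denseRange_denseSeq (I → T)).equalizer (cont x I p) (cont x0 I p)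
      (funext fun n => (hx I p n).trans (a1 I p n).symm)) t
  have eκ : κ = volume.map fun (z : T × T) (n : ℤ) => ψ (z.1, z.2 + n • z.1) 0 := by
    rw [← h4.map_eq]
    exact Measure.map_congr (nm'.mono fun z hz => funext hz)
  have two : ∀ (I : Finset ℤ) (p : I → ℤ), κ.map I.restrict {p} =
      2⁻¹ * ∫⁻ x, Gam ψ x0 (fun i : I => (i : ℤ) • x) p := fun I p => by
    have e1 := law_cyl mf p
    rw [← eκ] at e1
    have e2 : κ.map I.restrict {p} =
        ∫⁻ x, corr (fun y => ψ (-x, y) 0) (-fun i : I => (i : ℤ) • x) p := by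
      rw [e1, ← lintegral_neg_eq_self]
      refine lintegral_congr fun x => ?_
      congr 1; funext i; simp
    rw [← lintegral_congr_ae (all.mono fun x hx => same x hx I _ p)]
    simp only [Gam]
    rw [lintegral_add_left (meas_corr mf (τ := fun x (i : I) => (i : ℤ) • x) (by fun_prop) p).2,
      ← e1, ← e2, ← two_mul, ← mul_assoc, ENNReal.inv_mul_cancel (by simp) (by simp), one_mul]
  have mF : Measurable fun y => ψ (x0, y) 0 := mf.comp measurable_prodMk_left
  have mG : Measurable fun y => ψ (-x0, -y) 0 := mf.comp (by fun_prop)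
  refine ⟨_, _, mF, mG, (ext_restrict fun I p => ?_).symm, ext_restrict fun I p => ?_⟩
  · rw [Measure.map_add _ _ (Finset.measurable_restrict I), Measure.map_smul, Measure.map_smul,
      Measure.add_apply, Measure.smul_apply, Measure.smul_apply, two,
      law_cyl (f := fun z => ψ (x0, z.2) 0) (mF.comp measurable_snd),
      law_cyl (f := fun z => ψ (-x0, -z.2) 0) (mG.comp measurable_snd), smul_eq_mul, smul_eq_mul,
      ← mul_add, ← lintegral_add_left (meas_corr (f := fun z => ψ (x0, z.2) 0)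
        (mF.comp measurable_snd) (τ := fun x (i : I) => (i : ℤ) • x) (by fun_prop) p).2]
    congr 1
    refine lintegral_congr fun x => ?_
    rw [Gam, ← corr_neg fun y => ψ (-x0, y) 0]
  · have : (κ.map fun ω => -ω).map I.restrict {p} = κ.map I.restrict {-p} := by
      rw [Measure.map_map (Finset.measurable_restrict I) measurable_neg, Measure.map_apply
        ((Finset.measurable_restrict I).comp measurable_neg) (measurableSet_singleton _),
        Measure.map_apply (Finset.measurable_restrict I) (measurableSet_singleton _)]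
      congr 1; ext ω; simp [funext_iff, neg_eq_iff_eq_neg]
    rw [this, two, two]
    congr 1
    refine lintegral_congr fun x => ?_
    rw [a3 I _ p, same _ a2]

end Pool.Agent.Lib.MP_a5d0b3_an
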