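import Pool.Agent.Lib.MP_a5d0b3_an.Core

set_option autoImplicit false

open MeasureTheory Set Filter Topology
open scoped ENNReal ComplexConjugate ComplexOrder

namespace Pool.Agent.Lib.MP_a5d0b3_an

variable {a : ℤ → ℤ} {κ : Measure Om} [IsProbabilityMeasure κ] {M : ℕ → ℕ}

/-- the autocorrelation of the zero coordinate -/
noncomputable def cor (κ : Measure Om) (n : ℤ) : ℝ := ∫ ω, ((ω 0 * ω n : ℤ) : ℝ) ∂κ

/-- complete multiplicativity on the positive integers -/
def CM (a : ℤ → ℤ) : Prop := ∀ q n : ℤ, 0 < q → 0 < n → a (q * n) = a q * a n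

lemma slow_step {c : ℕ → ℝ} {m : ℝ} (hb : ∀ q, |c q| ≤ m) {q : ℕ} (hq : 1 ≤ q)
    (h1 : (m + c (q + 1)) / (q + 1 : ℕ) ≤ (m + c q) / q)
    (h2 : (m - c (q + 1)) / (q + 1 : ℕ) ≤ (m - c q) / q) : |c (q + 1) - c q| ≤ 2 * m / q := by
  have q0 : (0 : ℝ) < q := by exact_mod_cast hq
  push_cast at h1 h2
  rw [div_le_div_iff₀ (by positivity) q0] at h1 h2
  have := abs_le.1 (hb q)
  rw [le_div_iff₀ q0, ← abs_of_pos q0, ← abs_mul, abs_le]
  constructor <;> nlinarith [this.1, this.2]

lemma Gen.cor_zero (H : Gen a κ M) : cor κ 0 = 1 := by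
  rw [cor, integral_congr_ae (g := fun _ => 1) (H.ae_val.mono fun ω h => by
    rcases h 0 with e | e <;> simp [e])]
  simp

lemma Gen.corr2 (H : Gen a κ M) (hT : TR κ) (hm : CM a) {q : ℕ} (hq : 0 < q) (j k : ℕ) :
    Tendsto (fun m => (∑ i ∈ Finset.range (M m / q), (a (i + 1 + j) * a (i + 1 + k) : ℝ)) / M m)
      atTop (𝓝 (cor κ (q * (j - k)) / q)) := by
  let s : ℤ → ℝ := fun z => if z = 1 then 1 else -1
  have hs : ∀ z : ℤ, z = 1 ∨ z = -1 → s z = z := by rintro z (rfl | rfl) <;> simp [s]
  have ms : Measurable s := measurable_from_top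
  have t := H.core hT hq (I := {(q * j : ℤ), (q * k : ℤ)})
    (g := fun ω => s (ω (q * j)) * s (ω (q * k)))
    (fun ω ω' h => by beta_reduce; rw [h _ (by simp), h _ (by simp)]) (by fun_prop) fun ω => by
      simp only [s]; split_ifs <;> simp
  have e : ∫ ω, s (ω (q * j)) * s (ω (q * k)) ∂κ = cor κ (q * (j - k)) := by
    rw [cor]
    nth_rewrite 2 [← (H.inv_nat (q * k)).map_eq]
    rw [integral_map (measurable_sh _).aemeasurable (Measurable.aestronglyMeasurable (by fun_prop))]
    refine integral_congr_ae (H.ae_val.mono fun ω h => ?_)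
    simp only [sh, hs _ (h _)]
    push_cast
    rw [mul_comm]
    congr 3 <;> ring
  rw [e] at t
  refine t.congr fun m => ?_
  congr 1
  refine Finset.sum_congr rfl fun i _ => ?_
  simp only [pt, hs _ (H.val _), ← mul_add]
  rw [hm _ _ (by exact_mod_cast hq) (by positivity), hm _ _ (by exact_mod_cast hq) (by positivity)]
  rcases H.val q with h | h <;> simp [h]

lemma Gen.quad (H : Gen a κ M) (hT : TR κ) (hm : CM a) {q : ℕ} (hq : 0 < q) (N : ℕ) (p : ℕ → ℂ) :
    Tendsto (fun m => (∑ i ∈ Finset.range (M m / q),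
      (Complex.normSq (∑ j ∈ Finset.range N, p j * a (i + 1 + j)) : ℂ)) / M m) atTop
      (𝓝 ((∑ j ∈ Finset.range N, ∑ k ∈ Finset.range N,
        p j * conj (p k) * cor κ (q * (j - k))) / q)) := by
  have t := tendsto_finsetSum (Finset.range N) fun j _ => tendsto_finsetSum (Finset.range N)
    fun k _ => ((Complex.continuous_ofReal.tendsto _).comp (H.corr2 hT hm hq j k)).const_mul
      (p j * conj (p k))
  simp only [Finset.sum_div]
  convert t using 1
  · funext m
    simp only [Function.comp, ← Complex.mul_conj, map_sum, Finset.sum_mul_sum, Finset.sum_div]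
    push_cast
    rw [Finset.sum_comm]
    refine Finset.sum_congr rfl fun j _ => ?_
    rw [Finset.sum_comm]
    refine Finset.sum_congr rfl fun k _ => ?_
    rw [Finset.mul_sum]
    refine Finset.sum_congr rfl fun i _ => ?_
    rw [map_mul, map_intCast]; ring
  · simp only [Complex.ofReal_div, Complex.ofReal_natCast, mul_div_assoc]

theorem Gen.spectral (H : Gen a κ M) (hT : TR κ) (hm : CM a) :
    ∃ σ : Measure T, IsProbabilityMeasure σ ∧ (∀ n, ∫ x, fourier n x ∂σ = cor κ n) ∧
      σ.restrict {0}ᶜ ≪ volume ∧ (σ = Measure.dirac 0 ∨ volume ≪ σ) := by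
  have p1 := fun N p => ge_of_tendsto' (H.quad hT hm one_pos N p) fun m =>
    div_nonneg (Finset.sum_nonneg fun i _ => Complex.zero_le_real.2 (Complex.normSq_nonneg _))
      (Nat.cast_nonneg _)
  have p2 := fun N p => le_of_tendsto_of_tendsto' (H.quad hT hm two_pos N p)
    (H.quad hT hm one_pos N p) fun m => div_le_div_of_nonneg_right
      (Finset.sum_le_sum_of_subset_of_nonneg (Finset.range_mono (by omega))
        fun i _ _ => Complex.zero_le_real.2 (Complex.normSq_nonneg _)) (Nat.cast_nonneg _)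
  simp only [Nat.cast_one, one_mul, div_one, Nat.cast_ofNat] at p1 p2
  obtain ⟨σ, hσ, e⟩ := herglotz (fun n => cor κ n) (by rw [H.cor_zero]; rfl) p1
  obtain ⟨τ, hτ, e'⟩ := herglotz (fun n => 2 * cor κ n - cor κ (2 * n))
    (by rw [mul_zero, H.cor_zero]; norm_num) fun N p => by
      have := mul_nonneg (zero_le_two (α := ℂ)) (sub_nonneg.2 (p2 N p))
      rw [mul_sub, mul_div_cancel₀ _ two_ne_zero] at this
      convert this using 1
      simp only [Finset.mul_sum, ← Finset.sum_sub_distrib]
      exact Finset.sum_congr rfl fun j _ => Finset.sum_congr rfl fun k _ => by ring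
  have m2 : Measurable fun x : T => (2 : ℕ) • x := by fun_prop
  have dom : σ.map (fun x : T => (2 : ℕ) • x) + τ = σ + σ := ext_fourier fun n => by
    rw [integral_add_measure (int_fourier _ n) (int_fourier _ n),
      integral_add_measure (int_fourier _ n) (int_fourier _ n),
      integral_map m2.aemeasurable (fourier n).continuous.aestronglyMeasurable, e', e]
    have : ∀ x : T, fourier n ((2 : ℕ) • x) = fourier (2 * n) x := fun x => by
      rw [fourier_apply, fourier_apply, mul_comm, mul_smul]; rfl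
    simp only [this, e]; ring
  have ac : σ.restrict {0}ᶜ ≪ volume := ac_of_slow σ 2 fun q hq => by
    have k := fun (ε : ℝ) (hε : ε = 1 ∨ ε = -1) => le_of_tendsto_of_tendsto'
      ((H.corr2 hT hm q.succ_pos 0 0).add ((H.corr2 hT hm q.succ_pos 1 0).const_mul ε))
      ((H.corr2 hT hm hq 0 0).add ((H.corr2 hT hm hq 1 0).const_mul ε)) fun m => by
        simp only [← mul_div_assoc, ← add_div, Finset.mul_sum, ← Finset.sum_add_distrib]
        refine div_le_div_of_nonneg_right (Finset.sum_le_sum_of_subset_of_nonneg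
          (Finset.range_mono (Nat.div_le_div_left q.le_succ hq)) fun i _ _ => ?_) (Nat.cast_nonneg _)
        rcases hε with h | h <;> rcases H.val (i + 1 + (0 : ℕ)) with h0 | h0 <;>
          rcases H.val (i + 1 + (1 : ℕ)) with h1 | h1 <;> rw [h, h0, h1] <;> norm_num
    simp only [sub_self, mul_zero, H.cor_zero, Nat.cast_one, Nat.cast_zero, sub_zero, mul_one,
      ← mul_div_assoc, ← add_div] at k
    have := slow_step (c := fun q => cor κ q) (m := 1) (fun q => by
      rw [← Real.norm_eq_abs, ← Complex.norm_real, ← e]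
      simpa using norm_integral_le_of_norm_le_const (μ := σ) (f := fourier q) (C := 1)
        (ae_of_all _ fun x => (Circle.norm_coe _).le)) hq (by simpa using k 1 (Or.inl rfl))
      (by simpa [sub_eq_add_neg] using k (-1) (Or.inr rfl))
    rw [e, e, ← Complex.ofReal_sub, Complex.norm_real]
    simpa using this
  refine ⟨σ, hσ, e, ac, ?_⟩
  by_cases h0 : σ {0}ᶜ = 0
  · left
    have : σ.map id = σ.map fun _ => 0 := Measure.map_congr (by
      filter_upwards [measure_eq_zero_iff_ae_notMem.1 h0] with x hx using by simpa using hx)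
    simpa using this
  · refine Or.inr (dichotomy ac h0 fun N hN => ?_)
    obtain ⟨N', h1, h2, h3⟩ := exists_measurable_superset_of_null hN
    have := congrArg (fun μ : Measure T => μ N') dom
    simp only [Measure.add_apply, h3, add_zero, add_eq_zero, Measure.map_apply m2 h2] at this
    exact measure_mono_null (preimage_mono h1) this.1

omit [IsProbabilityMeasure κ] in
lemma TR.of_sets (h : ∀ q : ℕ, 0 < q → ∀ A : Set Om, MeasurableSet A →
    sh q ⁻¹' A =ᵐ[κ] A → sh 1 ⁻¹' A =ᵐ[κ] A) : TR κ := fun q hq v mv hv => by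
  have k : ∀ r : ℚ, sh 1 ⁻¹' (v ⁻¹' Iio r) =ᵐ[κ] (v ⁻¹' Iio r) := fun r =>
    h q hq _ (mv measurableSet_Iio) (by
      filter_upwards [hv] with ω e
      change (v (sh q ω) ∈ Iio (r : ℝ)) = _
      rw [e]; rfl)
  filter_upwards [ae_all_iff.2 k] with ω e
  exact eq_of_forall_lt_rat_iff_lt fun r => iff_of_eq (e r)

end Pool.Agent.Lib.MP_a5d0b3_an
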